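import Pool.Agent.Lib.MP_a9445a_lc.Mg.G119
import Pool.Agent.Lib.MP_a9445a_lc.Mg.G113

/-! # The algorithm -/

set_option autoImplicit false

open Finset

namespace Pool.Agent.MPa9445a.SN

open Pool.Agent.MPa9445a.BE

/-- The range of the parameters. -/
def PP (n : ℕ) : ℕ := 2048 * (n + 1) ^ 4

/-- The number of random bits of one family. -/
def bl (n : ℕ) : ℕ := n * (kb n + 1)

/-- The number of blocks. -/
def nbk (n : ℕ) : ℕ := 2 * n ^ 2

/-- The number of random bits: two families for every block. -/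
def Lb (n : ℕ) : ℕ := 2 * nbk n * bl n

/-- The digit `t` of the index `x` in base `PP n`. -/
def dg (n x t : ℕ) : ℕ := x / PP n ^ t % PP n

/-- The maximum of `f i`, `i < k`, for nonnegative values (`0` if `k = 0`). -/
def mx (k : ℕ) (f : ℕ → ℤ) : ℤ :=
  (tb k f).getD (argmax k fun i => (tb k f).getD i.toNat 0) 0

/-- The number of digits `1`. -/
def pc (n c : ℕ) : ℕ := ∑ v ∈ range n, bit c v

/-- The code of the random set with index `i` of the family `q`, from the array `R` of the random bits. -/
def rcd (n : ℕ) (R : List ℤ) (q i : ℕ) : ℕ := ∑ v ∈ range n,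
  ((gt R (q * bl n + v * (kb n + 1)) +
    ∑ j ∈ range (kb n), gt R (q * bl n + v * (kb n + 1) + (j + 1)) * (bit i j : ℤ)) % 2).toNat * 2 ^ v

/-- The value of the code `c`. -/
def val (n : ℕ) (M : List ℤ) (c : ℕ) : ℤ := Phi n M (vec n c)

/-- The score of the code `c`: the value and the code in one number. -/
def sco (n : ℕ) (M : List ℤ) (c : ℕ) : ℤ := (val n M c + ((n : ℤ) ^ 4 + 1)) * 2 ^ n + c

/-- The vertices of the set with code `d`. -/
def pD (n d : ℕ) : List ℤ := flt n fun v => bit d v = 1

/-- The vertices of the complement. -/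
def pE (n d : ℕ) : List ℤ := flt n fun v => bit d v = 0

/-- The vector on `D` with index `u`. -/
def vu (n d u : ℕ) : List ℤ := dec n (pD n d) u

/-- The mask with index `z` of the lists `A₁`, `A₂` of masks of the two halves of the complement. -/
def msk (n e : ℕ) (A₁ A₂ : List ℤ) (z : ℕ) : ℕ :=
  (gt A₁ (z / A₂.length)).toNat + 2 ^ ((n - e) / 2) * (gt A₂ (z % A₂.length)).toNat

/-- The vector on the complement of `D` with index `z`: the vector `y` with the signs of the mask flipped. -/
def vv (n e : ℕ) (A₁ A₂ : List ℤ) (y d z : ℕ) : List ℤ :=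
  tb n fun v => -(gt (vec n y) v * gt (dec n (pE n d) (msk n e A₁ A₂ z)) v)

/-- The indices of the vectors on `D` with value `α`. -/
def Ul (n : ℕ) (M : List ℤ) (e d : ℕ) (α : ℤ) : List ℤ := flt (2 ^ e) fun u => Phi n M (vu n d u) = α

/-- The indices of the vectors on the complement of `D` with value `β`. -/
def Vl (n : ℕ) (M : List ℤ) (e : ℕ) (A₁ A₂ : List ℤ) (y d : ℕ) (β : ℤ) : List ℤ :=
  flt (A₁.length * A₂.length) fun z => Phi n M (vv n e A₁ A₂ y d z) = β

/-- The levels. -/
def lv (n a : ℕ) : ℤ := (a : ℤ) - 2 * (n : ℤ) ^ 4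

/-- The number of solutions of the decoupled problem with the threshold `θ` in the lists. -/
def cnt (n : ℕ) (M : List ℤ) (e : ℕ) (A₁ A₂ : List ℤ) (y d : ℕ) (θ : ℤ) : ℕ :=
  ∑ a ∈ range (PP n), ∑ b ∈ range (PP n),
    if θ ≤ 2 * (lv n a + lv n b) then
      (Ul n M e d (lv n a)).length * (Vl n M e A₁ A₂ y d (lv n b)).length else 0

/-- The code of the vector composed of `u` and `z`. -/
def cmp (n e : ℕ) (A₁ A₂ : List ℤ) (y d u z : ℕ) : ℕ :=
  code n (lin n 1 (vu n d u) 1 (vv n e A₁ A₂ y d z))

/-- The best score of a solution of the decoupled problem. -/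
def en (n : ℕ) (M : List ℤ) (e : ℕ) (A₁ A₂ : List ℤ) (y d : ℕ) (θ : ℤ) : ℤ :=
  mx (PP n) fun a => mx (PP n) fun b =>
    if θ ≤ 2 * (lv n a + lv n b) then
      mx (Ul n M e d (lv n a)).length fun i => mx (Vl n M e A₁ A₂ y d (lv n b)).length fun j =>
        sco n M (cmp n e A₁ A₂ y d (gt (Ul n M e d (lv n a)) i).toNat
          (gt (Vl n M e A₁ A₂ y d (lv n b)) j).toNat)
    else 0

/-- The input of the main part: number of vertices, adjacency matrix, random bits, block, exponent of the number of
samples, size of `D`, numbers of flipped vertices in the two halves, number of the advice point, threshold, level. -/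
structure In where
  n : ℕ
  M : List ℤ
  R : List ℤ
  q : ℕ
  g : ℕ
  e : ℕ
  w₁ : ℕ
  w₂ : ℕ
  j : ℕ
  θ : ℤ
  T : ℤ

variable (a : In)

/-- The list of the advice points of level `T`. -/
def YL : List ℤ := flt (Jn a.n a.g) fun j => a.T ≤ val a.n a.M (rcd a.n a.R (2 * a.q + 1) j)

/-- The code of the advice point. -/
def yc : ℕ := rcd a.n a.R (2 * a.q + 1) (gt (YL a) a.j).toNat

/-- The list of the sets `D` of size `e`. -/
def Dl : List ℤ := flt (Jn a.n a.g) fun i => pc a.n (rcd a.n a.R (2 * a.q) i) = a.e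

/-- The masks of the first half. -/
def A1 : List ℤ := flt (2 ^ ((a.n - a.e) / 2)) fun c => pc a.n c = a.w₁

/-- The masks of the second half. -/
def A2 : List ℤ := flt (2 ^ ((a.n - a.e) - (a.n - a.e) / 2)) fun c => pc a.n c = a.w₂

/-- The number of the sets `D` which are treated. -/
def Kn : ℕ := min (Dl a).length (Bud a.n / (2 ^ a.e + (A1 a).length * (A2 a).length + 1))

/-- The code of the set `D` number `t`. -/
def dc (t : ℕ) : ℕ := rcd a.n a.R (2 * a.q) (gt (Dl a) t).toNat

/-- The table of the numbers of solutions. -/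
def Ct : List ℤ := tb (Kn a) fun t => (cnt a.n a.M a.e (A1 a) (A2 a) (yc a) (dc a t) a.θ : ℤ)

/-- The best score of the main part. -/
def main : ℤ := mx (Kn a) fun t =>
  if ∑ s ∈ range (t + 1), gt (Ct a) s ≤ Bud a.n then
    en a.n a.M a.e (A1 a) (A2 a) (yc a) (dc a t) a.θ else 0

/-- The best score of a sample. -/
def smp : ℤ := mx (Jn a.n a.g) fun j => sco a.n a.M (rcd a.n a.R (2 * a.q + 1) j)

/-- The input of the main part with index `x`. -/
def inp (n : ℕ) (M R : List ℤ) (x : ℕ) : In where
  n := n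
  M := M
  R := R
  q := dg n x 0
  g := min (dg n x 1) (sig n)
  e := min (dg n x 2) n
  w₁ := dg n x 3
  w₂ := dg n x 4
  j := dg n x 5
  θ := lv n (dg n x 6)
  T := lv n (dg n x 7)

/-- The best score. -/
def best (n : ℕ) (M R : List ℤ) : ℤ :=
  mx (PP n ^ 8) fun x => mx 2 fun s => if s = 0 then main (inp n M R x) else smp (inp n M R x)

/-- The result: the array of the binary digits of the best code. -/
def out (n : ℕ) (M R : List ℤ) : List ℤ := tb n fun v => (bit (best n M R % 2 ^ n).toNat v : ℤ)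

end Pool.Agent.MPa9445a.SN
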