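import Pool.Agent.Lib.MP_a9445a_lc.SN.Alg
import Pool.Agent.Lib.MP_a9445a_lc.BE.B0

/-! Auxiliary definitions for the correctness. -/

set_option autoImplicit false

open Finset
open scoped symmDiff

namespace Pool.Agent.MPa9445a.SN

open Pool.Agent.MPa9445a.BE

/-- The set with code `c`. -/
def ST (n c : ℕ) : Finset (Fin n) := univ.filter fun v => bit c v = 1

/-- The array `R` contains at the family `q` the bits `ω`. -/
def Fam (n : ℕ) (R : List ℤ) (q : ℕ) (ω : Fm n) : Prop :=
  ∀ (v : Fin n) (j : Fin (kb n + 1)), gt R (q * bl n + v * (kb n + 1) + j) = ((ω v j).toNat : ℤ)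

/-- A number which is `0` or a score. -/
def IsSc (n : ℕ) (M : List ℤ) (s : ℤ) : Prop := s = 0 ∨ ∃ c < 2 ^ n, s = sco n M c

/-- The set of the entries `1`. -/
def P1 (n : ℕ) (x : List ℤ) : Finset (Fin n) := univ.filter fun v => fv n x v = 1

/-- The masks of the first half (`A1`). -/
def B1 (n e w : ℕ) : List ℤ := flt (2 ^ ((n - e) / 2)) fun c => pc n c = w

/-- The masks of the second half (`A2`). -/
def B2 (n e w : ℕ) : List ℤ := flt (2 ^ ((n - e) - (n - e) / 2)) fun c => pc n c = w

/-- The array of the random bits. -/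
def rb {L : ℕ} (ρ : Fin L → Bool) : List ℤ := List.ofFn fun i => ((ρ i).toNat : ℤ)

end Pool.Agent.MPa9445a.SN
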