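import Pool.Agent.Lib.MP_a9445a_lc.Mg.G133
import Pool.Agent.Lib.MP_a9445a_lc.Mg.G033
import Pool.Agent.Lib.MP_a9445a_lc.Mg.G054
import Pool.Agent.Lib.MP_a9445a_lc.Mg.G134
import Pool.Agent.Lib.MP_a9445a_lc.Mg.G135
import Pool.Agent.Lib.MP_a9445a_lc.SN.Alg2

/-! Repetition, and all graphs at the same time. -/

set_option autoImplicit false

open Finset
open scoped symmDiff

namespace Pool.Agent.MPa9445a.SN

open Pool.Agent.MPa9445a.BE

open scoped Classical in
private theorem F1_one (n : ℕ) (hn : Even n) (G : SimpleGraph (Fin n)) (MG : List ℤ)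
    (hM : fm n MG = adjZ G) :
    (univ.filter fun ρ : Fin (Lb n) → Bool =>
      ¬ IsMinBisection G (univ.filter fun v : Fin n => gt (out n MG (rb ρ)) v = 1)).card *
        2 ^ (2 * n ^ 2) ≤ 2 ^ Lb n := by
  obtain ⟨φ, hφ⟩ := fam_equiv n
  obtain ⟨X₀, hX₀⟩ := Finite.exists_max (fun X : Finset (Fin n) => ff (wtm n MG) X)
  set B : Finset (Fm n × Fm n) :=
    univ.filter fun p : Fm n × Fm n => ¬ Suc (wtm n MG) X₀ p.1 p.2 with hB
  have hsuc := suc_prob (wtm n MG) (X₀ := X₀) hX₀
  have hB2 : 2 * B.card ≤ Fintype.card (Fm n × Fm n) := by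
    rw [Fintype.card_prod, ← sq, hB]
    refine le_trans (le_of_eq ?_) hsuc
    congr 2
  have hrep := rep B hB2 (nbk n)
  have hle : (univ.filter fun ρ : Fin (Lb n) → Bool =>
      ¬ IsMinBisection G (univ.filter fun v : Fin n => gt (out n MG (rb ρ)) v = 1)).card ≤
      (univ.filter fun f : Fin (nbk n) → Fm n × Fm n => ∀ q, f q ∈ B).card := by
    refine Finset.card_le_card_of_injOn φ ?_ (φ.injective.injOn)
    intro ρ hρ
    rw [Finset.mem_coe, Finset.mem_filter] at hρ
    rw [Finset.mem_coe, Finset.mem_filter]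
    refine ⟨Finset.mem_univ _, fun q => ?_⟩
    rw [hB, Finset.mem_filter]
    refine ⟨Finset.mem_univ _, fun hS => hρ.2 ?_⟩
    obtain ⟨h1, h2⟩ := hφ ρ q
    exact out_correct hn G hM hX₀ q.2 h1 h2 hS
  have hcard : Fintype.card (Fm n × Fm n) ^ nbk n = 2 ^ Lb n := by
    have h1 : Fintype.card (Fin (nbk n) → Fm n × Fm n) =
        Fintype.card (Fm n × Fm n) ^ nbk n := by
      rw [Fintype.card_fun, Fintype.card_fin]
    have h2 : Fintype.card (Fin (Lb n) → Bool) = 2 ^ Lb n := by
      rw [Fintype.card_fun, Fintype.card_fin, Fintype.card_bool]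
    rw [← h1, ← h2]
    exact (Fintype.card_congr φ).symm
  rw [hcard] at hrep
  have hnb : nbk n = 2 * n ^ 2 := rfl
  rw [← hnb]
  exact (Nat.mul_le_mul_right _ hle).trans hrep

open scoped Classical in
/-- All graphs at the same time. PROOF. There are at most `2 ^ (n ^ 2)` graphs (`SimpleGraph (Fin n)` injects in `Fin n × Fin n → Bool`). For every graph `G` choose a maximum `X₀` of `wtm n (M G)`. If `ρ` is bad for `G` then by `out_correct` all blocks `q < nbk n` fail
(`¬ Suc W X₀ (φ ρ q).1 (φ ρ q).2`, `φ` from `fam_equiv`): by `rep` and `suc_prob` at most the fraction `2 ^ (- 2 n ^ 2)` of the `ρ` (transport the count along `φ`). Sum over the graphs. -/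
theorem all_graphs (n : ℕ) (hn : Even n) (M : SimpleGraph (Fin n) → List ℤ)
    (hM : ∀ G, fm n (M G) = adjZ G) :
    (univ.filter fun ρ : Fin (Lb n) → Bool => ¬ ∀ G : SimpleGraph (Fin n),
      IsMinBisection G (univ.filter fun v : Fin n => gt (out n (M G) (rb ρ)) v = 1)).card *
        2 ^ (n ^ 2) ≤ 2 ^ Lb n := by
  let Gb : (Fin n × Fin n → Bool) → SimpleGraph (Fin n) := fun b =>
    SimpleGraph.fromRel fun u v => b (u, v) = true
  have hG : ∀ G : SimpleGraph (Fin n), Gb (fun p => decide (G.Adj p.1 p.2)) = G := by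
    intro G
    ext u v
    simp only [Gb, SimpleGraph.fromRel_adj, decide_eq_true_eq]
    constructor
    · rintro ⟨-, h | h⟩
      · exact h
      · exact h.symm
    · intro h
      exact ⟨h.ne, Or.inl h⟩
  have hsub : (univ.filter fun ρ : Fin (Lb n) → Bool => ¬ ∀ G : SimpleGraph (Fin n),
      IsMinBisection G (univ.filter fun v : Fin n => gt (out n (M G) (rb ρ)) v = 1)) ⊆
      (univ : Finset (Fin n × Fin n → Bool)).biUnion fun b =>
        univ.filter fun ρ : Fin (Lb n) → Bool =>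
          ¬ IsMinBisection (Gb b)
            (univ.filter fun v : Fin n => gt (out n (M (Gb b)) (rb ρ)) v = 1) := by
    intro ρ hρ
    rw [Finset.mem_filter] at hρ
    obtain ⟨G, hGb⟩ := not_forall.1 hρ.2
    rw [Finset.mem_biUnion]
    refine ⟨fun p => decide (G.Adj p.1 p.2), Finset.mem_univ _, ?_⟩
    rw [Finset.mem_filter]
    refine ⟨Finset.mem_univ _, ?_⟩
    rw [hG G]
    exact hGb
  have h1 := (Finset.card_le_card hsub).trans Finset.card_biUnion_le
  have h2 : (∑ b : Fin n × Fin n → Bool, (univ.filter fun ρ : Fin (Lb n) → Bool =>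
      ¬ IsMinBisection (Gb b)
        (univ.filter fun v : Fin n => gt (out n (M (Gb b)) (rb ρ)) v = 1)).card) *
          2 ^ (2 * n ^ 2) ≤ 2 ^ (n ^ 2) * 2 ^ Lb n := by
    rw [Finset.sum_mul]
    refine (Finset.sum_le_sum fun b _ => F1_one n hn (Gb b) (M (Gb b)) (hM _)).trans ?_
    rw [Finset.sum_const, Finset.card_univ, Fintype.card_fun, Fintype.card_prod, Fintype.card_fin,
      Fintype.card_bool, smul_eq_mul, ← sq]
  have h3 : 0 < 2 ^ (n ^ 2) := by positivity
  refine Nat.le_of_mul_le_mul_left ?_ h3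
  refine le_trans (le_of_eq ?_) ((Nat.mul_le_mul_right (2 ^ (2 * n ^ 2)) h1).trans h2)
  rw [two_mul (n ^ 2), pow_add]
  ring

end Pool.Agent.MPa9445a.SN
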