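import Pool.Agent.Lib.MP_a9445a_lc.SN.Alg
import Pool.Agent.Lib.MP_a9445a_lc.Mg.G116

/-! Auxiliary definitions for the running time. -/

set_option autoImplicit false

open Finset

namespace Pool.Agent.MPa9445a.SN

open Pool.Agent.MPa9445a.BE

variable {A : Type}

/-- The body of a loop; the weight may depend on the pass. -/
def BodyW (N : A → ℕ) (D : A → Prop) {Γ : List Ty} (ρ : A → Env Γ) (k : A → ℕ)
    (w : ℝ → A × ℕ → ℝ) (t : Ty) (f : A → ℕ → t.Val) : Prop :=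
  ∀ (Γ' : List Ty) (ρ' : A × ℕ → Env Γ'), Up N D ρ k ρ' → PN (NL N) (DL D k) ρ' (fun p => p.2) →
    Cp (NL N) (DL D k) ρ' w t (fun p => f p.1 p.2)

/-- The arguments of `cnt` and `en` are available. -/
structure Ag (N : A → ℕ) (D : A → Prop) {Γ : List Ty} (ρ : A → Env Γ) (n : A → ℕ) (M : A → List ℤ)
    (e : A → ℕ) (A₁ A₂ : A → List ℤ) (y d : A → ℕ) (θ : A → ℤ) : Prop where
  hn : PN N D ρ n
  bn : Bd N D n
  hM : PA N D ρ M
  he : PN N D ρ e
  be : Bd N D e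
  h1 : PA N D ρ A₁
  h2 : PA N D ρ A₂
  hy : PN N D ρ y
  hd : PN N D ρ d
  hθ : PI N D ρ θ

/-- The size of the tables. -/
def tw (e : ℕ) (A₁ A₂ : List ℤ) : ℝ := (2 : ℝ) ^ e + A₁.length * A₂.length + 1

/-- The fields of the input are available. -/
structure AvI (N : A → ℕ) (D : A → Prop) {Γ : List Ty} (ρ : A → Env Γ) (F : A → In) : Prop where
  hN : ∀ a, D a → (F a).n ≤ N a
  hn : PN N D ρ fun a => (F a).n
  hM : PA N D ρ fun a => (F a).M
  hR : PA N D ρ fun a => (F a).R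
  hq : PN N D ρ fun a => (F a).q
  hg : PN N D ρ fun a => (F a).g
  he : PN N D ρ fun a => (F a).e
  h1 : PN N D ρ fun a => (F a).w₁
  h2 : PN N D ρ fun a => (F a).w₂
  hj : PN N D ρ fun a => (F a).j
  hθ : PI N D ρ fun a => (F a).θ
  hT : PI N D ρ fun a => (F a).T
  bg : ∀ a, D a → (F a).g ≤ sig (F a).n
  be : ∀ a, D a → (F a).e ≤ (F a).n

/-- The weight of the algorithm. -/
noncomputable def wA (a : In) : ℝ := (2 : ℝ) ^ (486 * a.n / 625)

/-- The states: number of vertices, adjacency matrix, random bits. -/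
abbrev Gb : Type := ℕ × List ℤ × List ℤ

/-- The inputs which are considered. -/
def Dg (b : Gb) : Prop := b.2.1.length ≤ b.1 * b.1 ∧ (∀ x ∈ b.2.1, |x| ≤ 1) ∧
  b.2.2.length ≤ Lb b.1 ∧ ∀ x ∈ b.2.2, |x| ≤ 1

/-- The variables of the program. -/
def envb (b : Gb) : Env [.int, .arr, .arr] := ((b.1 : ℤ), b.2.1, b.2.2, ())

end Pool.Agent.MPa9445a.SN
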