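import Pool.Agent.Lib.MP_a9445a_lc.SN.Alg
import Pool.Agent.Lib.MP_a9445a_lc.Mg.G114
import Pool.Agent.Lib.MP_a9445a_lc.SN.WD

/-! Loops whose passes have different weights. -/

set_option autoImplicit false

open Finset

namespace Pool.Agent.MPa9445a.SN

open Pool.Agent.MPa9445a.BE

variable {A : Type} {N : A → ℕ} {D : A → Prop} {Γ : List Ty} {ρ : A → Env Γ}

/-- PROOF. As `Body.out` (`BE/P2b`). -/
theorem BodyW.out {k : A → ℕ} {w : ℝ → A × ℕ → ℝ} {t : Ty} {f : A → ℕ → t.Val}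
    (hk : ∃ c : ℕ, ∀ a, D a → BE.sz (k a : ℤ) ≤ (N a + 2) ^ c) (h : BodyW N D ρ k w t f) :
    ∃ (e : Ex (.int :: Γ) t) (c : ℕ), ∀ a, D a → ∀ i < k a,
      e.eval ((i : ℤ), ρ a) = f a i ∧ vs (f a i) ≤ (N a + 2) ^ c ∧
        ∀ τ : ℝ, 2 ≤ τ → 1 ≤ w τ (a, i) ∧
          e.cost τ ((i : ℤ), ρ a) ≤ ((N a : ℝ) + 2) ^ c * w τ (a, i) := by
  obtain ⟨c, hc⟩ := hk
  have up : Up N D ρ k (Γ' := .int :: Γ) (fun p => ((p.2 : ℤ), ρ p.1)) := by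
    intro w t f hf
    obtain ⟨e, m, he⟩ := hf
    refine ⟨Ex.wk e, m, fun p hp => ?_⟩
    simp only [Ex.eval, Ex.cost]
    exact he p.1 hp.1
  have hv : PN (NL N) (DL D k) (Γ := .int :: Γ) (fun p => ((p.2 : ℤ), ρ p.1))
      (fun p => p.2) := by
    refine Cp.top (t := .int) (ρ := fun p : A × ℕ => ρ p.1) (f := fun p => (p.2 : ℤ))
      ⟨c, fun p hp => ?_⟩
    refine le_trans ?_ (hc p.1 hp.1)
    refine sz_mono ?_
    rw [Nat.abs_cast, Nat.abs_cast]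
    exact_mod_cast hp.2.le
  obtain ⟨e, m, he⟩ := h _ _ up hv
  exact ⟨e, m, fun a ha i hi => he (a, i) ⟨ha, hi⟩⟩

end Pool.Agent.MPa9445a.SN
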