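import Pool.Agent.Lib.MP_a9445a_lc.SN.Alg
import Pool.Agent.Lib.MP_a9445a_lc.Mg.G114
import Pool.Agent.Lib.MP_a9445a_lc.SN.W1a
import Pool.Agent.Lib.MP_a9445a_lc.SN.W1b
import Pool.Agent.Lib.MP_a9445a_lc.SN.WD

/-! Loops whose passes have different weights. -/

set_option autoImplicit false

open Finset

namespace Pool.Agent.MPa9445a.SN

open Pool.Agent.MPa9445a.BE

private theorem W1c_x {A : Type} (N : A → ℕ) (a : A) : (2 : ℝ) ≤ (N a : ℝ) + 2 := by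
  have : (0 : ℝ) ≤ (N a : ℝ) := Nat.cast_nonneg _
  linarith

private theorem W1c_aux {x : ℝ} (hx : 2 ≤ x) (m c : ℕ) :
    1 ≤ x ^ m ∧ 1 ≤ x ^ c ∧ x ^ m + 1 ≤ x ^ (m + c + 4) ∧
      x ^ m + x ^ c + (x ^ m + x ^ c) + 1 ≤ x ^ (m + c + 4) := by
  have h0 : (1 : ℝ) ≤ x := by linarith
  have h1 : (1 : ℝ) ≤ x ^ m := one_le_pow₀ h0
  have h2 : (1 : ℝ) ≤ x ^ c := one_le_pow₀ h0
  have h3 : x ^ (m + c + 4) = x ^ m * x ^ c * x ^ 4 := by ring
  have h4 : (16 : ℝ) ≤ x ^ 4 := by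
    calc (16 : ℝ) = 2 ^ 4 := by norm_num
      _ ≤ x ^ 4 := pow_le_pow_left₀ (by norm_num) hx 4
  generalize x ^ m = u at *
  generalize x ^ c = v at *
  have h6 : u * v * 16 ≤ u * v * x ^ 4 :=
    mul_le_mul_of_nonneg_left h4 (mul_nonneg (by linarith) (by linarith))
  have h7 : 0 ≤ (u - 1) * (v - 1) := mul_nonneg (by linarith) (by linarith)
  rw [h3]
  refine ⟨h1, h2, ?_, ?_⟩ <;> nlinarith

private theorem W1c_abs (k : ℕ) (f : ℕ → ℤ) {B : ℕ} (h : ∀ i < k, BE.sz (f i) ≤ B) :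
    BE.sz (∑ i ∈ Finset.range k, |f i|) ≤ BE.sz (k : ℤ) + B := by
  have h1 : ∀ i ∈ Finset.range k, |f i| ≤ 2 ^ B := by
    intro i hi
    have h2 : (f i).natAbs < 2 ^ B := Nat.size_le.mp (h i (Finset.mem_range.mp hi))
    rw [Int.abs_eq_natAbs]
    exact_mod_cast h2.le
  have h3 : ∑ i ∈ Finset.range k, |f i| ≤ k * 2 ^ B := by
    refine (Finset.sum_le_sum h1).trans ?_
    rw [Finset.sum_const, Finset.card_range, nsmul_eq_mul]
  have h4 : 0 ≤ ∑ i ∈ Finset.range k, |f i| := Finset.sum_nonneg fun i _ => abs_nonneg _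
  have h5 : k < 2 ^ BE.sz (k : ℤ) := by
    have h6 : (k : ℤ).natAbs < 2 ^ BE.sz (k : ℤ) := Nat.lt_size_self _
    exact h6
  have h7 : (∑ i ∈ Finset.range k, |f i|).natAbs ≤ k * 2 ^ B := by
    zify
    rw [abs_of_nonneg h4]
    exact h3
  have h8 : k * 2 ^ B < 2 ^ (BE.sz (k : ℤ) + B) := by
    rw [pow_add]
    exact Nat.mul_lt_mul_of_pos_right h5 (Nat.two_pow_pos B)
  exact Nat.size_le.mpr (h7.trans_lt h8)

private theorem W1c_cost {k : ℕ} {x : ℝ} (hx : 2 ≤ x) {w : ℕ → ℝ} (hw : ∀ i < k, 1 ≤ w i)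
    (m c : ℕ) {kc p : ℝ}
    {ec q : ℕ → ℝ} (hkc : kc ≤ x ^ m) (hp : p ≤ x ^ m) (hec : ∀ i < k, ec i ≤ x ^ c * w i)
    (hq : ∀ i < k, q i ≤ x ^ m + x ^ c) :
    kc + 1 + ∑ i ∈ Finset.range k, (ec i + 1 + p + q i) ≤
      x ^ (m + c + 4) * (1 + ∑ i ∈ Finset.range k, w i) := by
  obtain ⟨h1, h2, h3, h4⟩ := W1c_aux hx m c
  have h5 : ∀ i ∈ Finset.range k, ec i + 1 + p + q i ≤ x ^ (m + c + 4) * w i := by
    intro i hi
    have h6 := hec i (Finset.mem_range.mp hi)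
    have h7 := hq i (Finset.mem_range.mp hi)
    have hwi := hw i (Finset.mem_range.mp hi)
    have h8 : (x ^ m + x ^ c + (x ^ m + x ^ c) + 1) * w i ≤ x ^ (m + c + 4) * w i :=
      mul_le_mul_of_nonneg_right h4 (by linarith)
    have h9 : 0 ≤ (x ^ m + x ^ m + x ^ c + 1) * (w i - 1) :=
      mul_nonneg (by linarith) (by linarith)
    nlinarith
  have h6 := Finset.sum_le_sum h5
  rw [← Finset.mul_sum] at h6
  linarith

variable {A : Type} {N : A → ℕ} {D : A → Prop} {Γ : List Ty} {ρ : A → Env Γ}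

/-- PROOF. As `Cp.sum` (`BE/P2b`). -/
theorem sumW {k : A → ℕ} {w : ℝ → A × ℕ → ℝ} {f : A → ℕ → ℤ} (hk : PN N D ρ k)
    (h : BodyW N D ρ k w .int f) :
    Cp N D ρ (fun τ a => 1 + ∑ i ∈ range (k a), w τ (a, i)) .int
      (fun a => ∑ i ∈ range (k a), f a i) := by
  obtain ⟨ek, m, hk'⟩ := hk
  obtain ⟨e, c, he⟩ := BodyW.out ⟨m, fun a ha => (hk' a ha).2.1⟩ h
  refine ⟨Ex.sum ek e, m + c + 4, fun a ha => ?_⟩
  obtain ⟨h3, h4, h5⟩ := hk' a ha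
  obtain ⟨h20, h21, h22, h23⟩ := W1c_aux (W1c_x N a) m c
  have hkR : (BE.sz (k a : ℤ) : ℝ) ≤ ((N a : ℝ) + 2) ^ m := by
    have h9 : BE.sz (k a : ℤ) ≤ (N a + 2) ^ m := h4
    exact_mod_cast h9
  have hfR : ∀ i < k a, BE.sz (f a i) ≤ (N a + 2) ^ c := fun i hi => (he a ha i hi).2.1
  have hS : BE.sz (∑ i ∈ Finset.range (k a), |f a i|) ≤ BE.sz (k a : ℤ) + (N a + 2) ^ c :=
    W1c_abs (k a) (f a) hfR
  have hSR : (BE.sz (∑ i ∈ Finset.range (k a), |f a i|) : ℝ) ≤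
      ((N a : ℝ) + 2) ^ m + ((N a : ℝ) + 2) ^ c := by
    have h9 : (BE.sz (∑ i ∈ Finset.range (k a), |f a i|) : ℝ) ≤
        BE.sz (k a : ℤ) + ((N a : ℝ) + 2) ^ c := by exact_mod_cast hS
    linarith
  refine ⟨?_, ?_, fun τ hτ => ⟨?_, ?_⟩⟩
  · simp only [Ex.eval]
    rw [h3, Int.toNat_natCast]
    exact Finset.sum_congr rfl fun i hi => (he a ha i (Finset.mem_range.mp hi)).1
  · have h10 : BE.sz (∑ i ∈ Finset.range (k a), f a i) ≤
        BE.sz (∑ i ∈ Finset.range (k a), |f a i|) := by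
      apply sz_mono
      rw [abs_of_nonneg (Finset.sum_nonneg fun i _ => abs_nonneg (f a i))]
      exact Finset.abs_sum_le_sum_abs _ _
    have h11 : (BE.sz (∑ i ∈ Finset.range (k a), f a i) : ℝ) ≤
        ((N a : ℝ) + 2) ^ (m + c + 4) := by
      have h12 : (BE.sz (∑ i ∈ Finset.range (k a), f a i) : ℝ) ≤
          BE.sz (∑ i ∈ Finset.range (k a), |f a i|) := by exact_mod_cast h10
      linarith
    change BE.sz (∑ i ∈ Finset.range (k a), f a i) ≤ _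
    exact_mod_cast h11
  · have h14 : 0 ≤ ∑ i ∈ range (k a), w τ (a, i) :=
      Finset.sum_nonneg fun i hi =>
        zero_le_one.trans ((he a ha i (Finset.mem_range.mp hi)).2.2 τ hτ).1
    linarith
  · have h13 := (h5 τ hτ).2
    rw [one, mul_one] at h13
    simp only [Ex.cost]
    rw [h3, Int.toNat_natCast]
    have h15 : ∑ j ∈ Finset.range (k a), |e.eval ((j : ℤ), ρ a)| =
        ∑ j ∈ Finset.range (k a), |f a j| :=
      Finset.sum_congr rfl fun i hi => by rw [(he a ha i (Finset.mem_range.mp hi)).1]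
    rw [h15]
    exact W1c_cost (W1c_x N a) (fun i hi => ((he a ha i hi).2.2 τ hτ).1) m c h13 hkR
      (fun i hi => ((he a ha i hi).2.2 τ hτ).2) (fun i _ => hSR)

end Pool.Agent.MPa9445a.SN
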