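import Pool.Agent.Lib.MP_a9445a_lc.SN.Alg
import Pool.Agent.Lib.MP_a9445a_lc.Mg.G114
import Pool.Agent.Lib.MP_a9445a_lc.SN.W1a
import Pool.Agent.Lib.MP_a9445a_lc.SN.W1b
import Pool.Agent.Lib.MP_a9445a_lc.SN.W1c
import Pool.Agent.Lib.MP_a9445a_lc.SN.WD

/-! Loops whose passes have different weights. -/

set_option autoImplicit false

open Finset

namespace Pool.Agent.MPa9445a.SN

open Pool.Agent.MPa9445a.BE

variable {A : Type} {N : A → ℕ} {D : A → Prop} {Γ : List Ty} {ρ : A → Env Γ}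

/-- PROOF. Store the table `tb (k a) (f a)` (`tabW`, `Cp.store`), then `Cp.amax` for its entries (weight `(k + 1) * 1 ≤ 1 + ∑ w`, `Cp.mono`), then `PI.get` (store the index). -/
theorem mxW {k : A → ℕ} {w : ℝ → A × ℕ → ℝ} {f : A → ℕ → ℤ} (hk : PN N D ρ k)
    (h : BodyW N D ρ k w .int f) :
    Cp N D ρ (fun τ a => 1 + ∑ i ∈ range (k a), w τ (a, i)) .int (fun a => mx (k a) (f a)) := by
  have hkb : ∃ c : ℕ, ∀ a, D a → BE.sz (k a : ℤ) ≤ (N a + 2) ^ c := by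
    obtain ⟨e, c, hc⟩ := hk
    exact ⟨c, fun a ha => (hc a ha).2.1⟩
  obtain ⟨_, _, hout⟩ := BodyW.out hkb h
  have hw1 : ∀ a, D a → ∀ τ : ℝ, 2 ≤ τ →
      ((k a : ℝ) + 1) ≤ 1 + ∑ i ∈ range (k a), w τ (a, i) := by
    intro a ha τ hτ
    have h1 : ∑ _i ∈ range (k a), (1 : ℝ) ≤ ∑ i ∈ range (k a), w τ (a, i) :=
      Finset.sum_le_sum fun i hi => ((hout a ha i (Finset.mem_range.1 hi)).2.2 τ hτ).1
    rw [Finset.sum_const, Finset.card_range, nsmul_eq_mul, mul_one] at h1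
    linarith
  have hw0 : ∀ a, D a → ∀ τ : ℝ, 2 ≤ τ → 1 ≤ 1 + ∑ i ∈ range (k a), w τ (a, i) := by
    intro a ha τ hτ
    have h1 := hw1 a ha τ hτ
    have h2 : (0 : ℝ) ≤ k a := Nat.cast_nonneg _
    linarith
  refine (tabW hk h).store fun Γ1 ρ1 k1 hT => ?_
  have hb : Body N D ρ1 k one .int (fun a i => (tb (k a) (f a)).getD i 0) := by
    intro Γ2 ρ2 up2 hv
    exact PI.get (up2.a hT) hv
  have hamax := Cp.amax (k1.n hk) (fun _ _ _ _ => le_refl _) hb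
  have hamax' : Cp N D ρ1 (fun τ a => 1 + ∑ i ∈ range (k a), w τ (a, i)) .int
      (fun a => (argmax (k a) (fun i => (tb (k a) (f a)).getD i.toNat 0) : ℤ)) := by
    refine hamax.mono fun a ha τ hτ => ?_
    have h1 := hw1 a ha τ hτ
    simpa [one] using h1
  refine hamax'.store fun Γ2 ρ2 k2 hI => ?_
  exact (PI.get (k2.a hT) hI).lift hw0

end Pool.Agent.MPa9445a.SN
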