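import Pool.Agent.Lib.MP_a9445a_lc.SN.Alg
import Pool.Agent.Lib.MP_a9445a_lc.Mg.G114
import Pool.Agent.Lib.MP_a9445a_lc.SN.W1a
import Pool.Agent.Lib.MP_a9445a_lc.SN.W1b
import Pool.Agent.Lib.MP_a9445a_lc.SN.W1c
import Pool.Agent.Lib.MP_a9445a_lc.SN.W1d
import Pool.Agent.Lib.MP_a9445a_lc.SN.WD

/-! Loops whose passes have different weights. -/

set_option autoImplicit false

open Finset

namespace Pool.Agent.MPa9445a.SN

open Pool.Agent.MPa9445a.BE

variable {A : Type} {N : A → ℕ} {D : A → Prop} {Γ : List Ty} {ρ : A → Env Γ}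

/-- Conditions: only the branch which is taken is charged. PROOF. As `Cp.iteD` (`BE/P1`): the weight of the state is `u` if `q`, otherwise `v`; enlarge both weights to the weight of the state on the smaller domains (`Cp.mono`, `Cp.dom`). -/
theorem iteW {u v : ℝ → A → ℝ} {q : A → Prop} [∀ a, Decidable (q a)] {f g : A → ℤ}
    (hq : PB N D ρ q) (hf : Cp N (fun a => D a ∧ q a) ρ u .int f)
    (hg : Cp N (fun a => D a ∧ ¬ q a) ρ v .int g) :
    Cp N D ρ (fun τ a => if q a then u τ a else v τ a) .int (fun a => if q a then f a else g a) := by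
  refine Cp.iteD (w := fun τ a => if q a then u τ a else v τ a) hq ?_ ?_
  · refine hf.mono fun a ha τ _ => ?_
    show u τ a ≤ if q a then u τ a else v τ a
    rw [if_pos ha.2]
  · refine hg.mono fun a ha τ _ => ?_
    show v τ a ≤ if q a then u τ a else v τ a
    rw [if_neg ha.2]

end Pool.Agent.MPa9445a.SN
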