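import Pool.Agent.Lib.MP_a9445a_lc.SN.W1a
import Pool.Agent.Lib.MP_a9445a_lc.SN.W1b
import Pool.Agent.Lib.MP_a9445a_lc.SN.W1c
import Pool.Agent.Lib.MP_a9445a_lc.SN.W1d
import Pool.Agent.Lib.MP_a9445a_lc.SN.W1e
import Pool.Agent.Lib.MP_a9445a_lc.Mg.G116
import Pool.Agent.Lib.MP_a9445a_lc.SN.WD

/-! The small procedures are computed by programs in polynomial time. -/

set_option autoImplicit false

open Finset

namespace Pool.Agent.MPa9445a.SN

open Pool.Agent.MPa9445a.BE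

variable {A : Type} {N : A → ℕ} {D : A → Prop} {Γ : List Ty} {ρ : A → Env Γ}

theorem c_kb {n : A → ℕ} (hn : PN N D ρ n) : PN N D ρ (fun a => kb (n a)) := by
  exact PN.add (PN.mul (PN.const 3) hn) (PN.const 6)

theorem bd_kb {n : A → ℕ} (hb : Bd N D n) : Bd N D (fun a => kb (n a)) := by
  exact ((Bd.const 3).mul hb).add (Bd.const 6)

theorem c_bl {n : A → ℕ} (hn : PN N D ρ n) : PN N D ρ (fun a => bl (n a)) := by
  exact PN.mul hn (PN.add (c_kb hn) (PN.const 1))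

theorem c_PP {n : A → ℕ} (hn : PN N D ρ n) : PN N D ρ (fun a => PP (n a)) := by
  exact PN.mul (PN.const 2048) (PN.pow (PN.add hn (PN.const 1)) 4)

theorem bd_PP {n : A → ℕ} (hb : Bd N D n) : Bd N D (fun a => PP (n a)) := by
  have h := hb.add (Bd.const 1)
  refine Bd.le ((Bd.const 2048).mul ((h.mul h).mul (h.mul h))) fun a _ => le_of_eq ?_
  unfold PP
  ring

theorem c_Bud {n : A → ℕ} (hn : PN N D ρ n) (hb : Bd N D n) : PN N D ρ (fun a => Bud (n a)) := by
  exact PN.mul (PN.pow (PN.add hn (PN.const 2)) 20)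
    (PN.pow2 (PN.div (PN.mul (PN.const 486) hn) (PN.const 625))
      (Bd.div ((Bd.const 486).mul hb)))

theorem c_Jn {n g : A → ℕ} (hn : PN N D ρ n) (hg : PN N D ρ g) (bg : Bd N D g) :
    PN N D ρ (fun a => Jn (n a) (g a)) := by
  exact PN.mul (PN.pow2 hg bg) (PN.mul (PN.const 64) (PN.pow (PN.add hn (PN.const 1)) 2))

theorem c_sig {n : A → ℕ} (hn : PN N D ρ n) : PN N D ρ (fun a => sig (n a)) := by
  exact PN.div (PN.mul (PN.const 89) hn) (PN.const 400)

theorem c_dg {n x : A → ℕ} (hn : PN N D ρ n) (hx : PN N D ρ x) (t : ℕ) :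
    PN N D ρ (fun a => dg (n a) (x a) t) := by
  exact PN.mod (PN.div hx (PN.pow (c_PP hn) t)) (c_PP hn)

theorem c_min {f g : A → ℕ} (hf : PN N D ρ f) (hg : PN N D ρ g) :
    PN N D ρ (fun a => min (f a) (g a)) := by
  refine (PN.ite (PB.leN hf hg) hf hg).congr fun a _ => ?_
  exact congrArg (fun m : ℕ => (m : ℤ)) (min_def (f a) (g a)).symm

theorem c_lv {n x : A → ℕ} (hn : PN N D ρ n) (hx : PN N D ρ x) :
    PI N D ρ (fun a => lv (n a) (x a)) := by
  exact PI.sub hx (PI.mul (PI.const 2) (PI.pow hn 4))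

theorem c_pc {n c : A → ℕ} (hn : PN N D ρ n) (hb : Bd N D n) (hc : PN N D ρ c) :
    PN N D ρ (fun a => pc (n a) (c a)) := by
  exact PN.sum hn hb fun Γ1 ρ1 up hv => PN.bit (up.n hc) hv (Bd.var hb)

end Pool.Agent.MPa9445a.SN
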