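import Pool.Agent.Lib.MP_a9445a_lc.SN.W1a
import Pool.Agent.Lib.MP_a9445a_lc.SN.W1b
import Pool.Agent.Lib.MP_a9445a_lc.SN.W1c
import Pool.Agent.Lib.MP_a9445a_lc.SN.W1d
import Pool.Agent.Lib.MP_a9445a_lc.SN.W1e
import Pool.Agent.Lib.MP_a9445a_lc.Mg.G116
import Pool.Agent.Lib.MP_a9445a_lc.SN.W2a
import Pool.Agent.Lib.MP_a9445a_lc.SN.WD

/-! The small procedures are computed by programs in polynomial time. -/

set_option autoImplicit false

open Finset

namespace Pool.Agent.MPa9445a.SN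

open Pool.Agent.MPa9445a.BE

variable {A : Type} {N : A → ℕ} {D : A → Prop} {Γ : List Ty} {ρ : A → Env Γ}

/-- PROOF. `PN.sum` over `v < n`; inside `PN.toNat` of `PI.mod` of the sum of `PI.get` and `PI.sum` over `j < kb n` (`PI.mul (PI.get ..) (PN.bit ..)`); `PN.pow2`. -/
theorem c_rcd {n q i : A → ℕ} {R : A → List ℤ} (hn : PN N D ρ n) (hb : Bd N D n)
    (hR : PA N D ρ R) (hq : PN N D ρ q) (hi : PN N D ρ i) :
    PN N D ρ (fun a => rcd (n a) (R a) (q a) (i a)) := by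
  refine PN.sum hn hb fun Γ1 ρ1 up1 hv => ?_
  have hn1 := up1.n hn
  have hidx : PN (NL N) (DL D n) ρ1
      (fun p => q p.1 * bl (n p.1) + p.2 * (kb (n p.1) + 1)) :=
    PN.add (PN.mul (up1.n hq) (c_bl hn1)) (PN.mul hv (PN.add (c_kb hn1) (PN.const 1)))
  refine PN.mul (PN.toNat (PI.mod (PI.add (PI.get (up1.a hR) hidx) ?_) (PI.const 2)))
    (PN.pow2 hv (Bd.var hb))
  refine PI.sum (c_kb hn1) (bd_kb (hb.up _)) fun Γ2 ρ2 up2 hj => ?_
  exact PI.mul (PI.get (up2.a (up1.a hR)) (PN.add (up2.n hidx) (PN.add hj (PN.const 1))))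
    (PN.bit (up2.n (up1.n hi)) hj (Bd.var (bd_kb (hb.up _))))

end Pool.Agent.MPa9445a.SN
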