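import Pool.Agent.Lib.MP_a9445a_lc.SN.W1a
import Pool.Agent.Lib.MP_a9445a_lc.SN.W1b
import Pool.Agent.Lib.MP_a9445a_lc.SN.W1c
import Pool.Agent.Lib.MP_a9445a_lc.SN.W1d
import Pool.Agent.Lib.MP_a9445a_lc.SN.W1e
import Pool.Agent.Lib.MP_a9445a_lc.Mg.G116
import Pool.Agent.Lib.MP_a9445a_lc.SN.W2a
import Pool.Agent.Lib.MP_a9445a_lc.SN.W2b
import Pool.Agent.Lib.MP_a9445a_lc.SN.WD

/-! The small procedures are computed by programs in polynomial time. -/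

set_option autoImplicit false

open Finset

namespace Pool.Agent.MPa9445a.SN

open Pool.Agent.MPa9445a.BE

variable {A : Type} {N : A → ℕ} {D : A → Prop} {Γ : List Ty} {ρ : A → Env Γ}

private theorem W2c_pD {n d : A → ℕ} (hn : PN N D ρ n) (hb : Bd N D n) (hd : PN N D ρ d) :
    PA N D ρ (fun a => pD (n a) (d a)) := by
  refine PA.filter hn hb fun Γ1 ρ1 up hv => ?_
  exact PB.eqN (PN.bit (up.n hd) hv (Bd.var hb)) (PN.const 1)

private theorem W2c_pE {n d : A → ℕ} (hn : PN N D ρ n) (hb : Bd N D n) (hd : PN N D ρ d) :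
    PA N D ρ (fun a => pE (n a) (d a)) := by
  refine PA.filter hn hb fun Γ1 ρ1 up hv => ?_
  exact PB.eqN (PN.bit (up.n hd) hv (Bd.var hb)) (PN.const 0)

theorem c_val {n c : A → ℕ} {M : A → List ℤ} (hn : PN N D ρ n) (hb : Bd N D n)
    (hM : PA N D ρ M) (hc : PN N D ρ c) : PI N D ρ (fun a => val (n a) (M a) (c a)) :=
  PI.Phi hn hb hM (PA.vec hn hb hc)

theorem c_sco {n c : A → ℕ} {M : A → List ℤ} (hn : PN N D ρ n) (hb : Bd N D n)
    (hM : PA N D ρ M) (hc : PN N D ρ c) : PI N D ρ (fun a => sco (n a) (M a) (c a)) := by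
  refine (PI.add (PI.mul (PI.add (c_val hn hb hM hc) (PI.add (PI.pow hn 4) (PI.const 1)))
    (PN.pow2 hn hb)) hc).congr fun a _ => ?_
  show _ = (val (n a) (M a) (c a) + ((n a : ℤ) ^ 4 + 1)) * 2 ^ n a + c a
  push_cast
  rfl

theorem c_vu {n d u : A → ℕ} (hn : PN N D ρ n) (hb : Bd N D n) (hd : PN N D ρ d)
    (hu : PN N D ρ u) : PA N D ρ (fun a => vu (n a) (d a) (u a)) :=
  PA.dec hn hb (W2c_pD hn hb hd) (Bd.le hb fun _ _ => length_flt_le _ _) hu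

theorem c_msk {n e z : A → ℕ} {A₁ A₂ : A → List ℤ} (hn : PN N D ρ n) (hb : Bd N D n)
    (he : PN N D ρ e) (h1 : PA N D ρ A₁) (h2 : PA N D ρ A₂) (hz : PN N D ρ z) :
    PN N D ρ (fun a => msk (n a) (e a) (A₁ a) (A₂ a) (z a)) :=
  PN.add (PN.toNat (PI.get h1 (PN.div hz (PN.len h2))))
    (PN.mul (PN.pow2 (PN.div (PN.sub hn he) (PN.const 2))
      (Bd.le hb fun _ _ => (Nat.div_le_self _ _).trans (Nat.sub_le _ _)))
      (PN.toNat (PI.get h2 (PN.mod hz (PN.len h2)))))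

theorem c_vv {n e y d z : A → ℕ} {A₁ A₂ : A → List ℤ} (hn : PN N D ρ n) (hb : Bd N D n)
    (he : PN N D ρ e) (h1 : PA N D ρ A₁) (h2 : PA N D ρ A₂) (hy : PN N D ρ y)
    (hd : PN N D ρ d) (hz : PN N D ρ z) :
    PA N D ρ (fun a => vv (n a) (e a) (A₁ a) (A₂ a) (y a) (d a) (z a)) := by
  refine PA.tab hn hb fun Γ1 ρ1 up hv => ?_
  have hn' := up.n hn
  have hb' : Bd (NL N) (DL D n) (fun p => n p.1) := hb.up _
  have hE := W2c_pE hn' hb' (up.n hd)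
  have hm := c_msk hn' hb' (up.n he) (up.a h1) (up.a h2) (up.n hz)
  refine (PI.sub (PI.const 0) (PI.mul (PI.get (PA.vec hn' hb' (up.n hy)) hv)
    (PI.get (PA.dec hn' hb' hE (Bd.le hb' fun _ _ => length_flt_le _ _) hm) hv))).congr
    fun _ _ => zero_sub _

theorem c_cmp {n e y d u z : A → ℕ} {A₁ A₂ : A → List ℤ} (hn : PN N D ρ n) (hb : Bd N D n)
    (he : PN N D ρ e) (h1 : PA N D ρ A₁) (h2 : PA N D ρ A₂) (hy : PN N D ρ y)
    (hd : PN N D ρ d) (hu : PN N D ρ u) (hz : PN N D ρ z) :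
    PN N D ρ (fun a => cmp (n a) (e a) (A₁ a) (A₂ a) (y a) (d a) (u a) (z a)) :=
  PN.code hn hb (PA.lin 1 1 hn hb (c_vu hn hb hd hu) (c_vv hn hb he h1 h2 hy hd hz))

end Pool.Agent.MPa9445a.SN
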