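import Pool.Agent.Lib.MP_a9445a_lc.SN.W2a
import Pool.Agent.Lib.MP_a9445a_lc.SN.W2b
import Pool.Agent.Lib.MP_a9445a_lc.SN.W2c
import Pool.Agent.Lib.MP_a9445a_lc.SN.WD

/-! The lists, the counts and the enumeration are computed by programs. -/

set_option autoImplicit false

open Finset

namespace Pool.Agent.MPa9445a.SN

open Pool.Agent.MPa9445a.BE

variable {A : Type} {N : A → ℕ} {D : A → Prop} {Γ : List Ty} {ρ : A → Env Γ}
variable {n e y d : A → ℕ} {M A₁ A₂ : A → List ℤ} {θ : A → ℤ}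



/-- PROOF. Use `Up` for every field. -/
theorem Ag.up (h : Ag N D ρ n M e A₁ A₂ y d θ) {k : A → ℕ} {Γ' : List Ty}
    {ρ' : A × ℕ → Env Γ'} (up : Up N D ρ k ρ') :
    Ag (NL N) (DL D k) ρ' (fun p => n p.1) (fun p => M p.1) (fun p => e p.1) (fun p => A₁ p.1)
      (fun p => A₂ p.1) (fun p => y p.1) (fun p => d p.1) (fun p => θ p.1) := by
  exact ⟨up.n h.hn, h.bn.up _, up.a h.hM, up.n h.he, h.be.up _, up.a h.h1, up.a h.h2, up.n h.hy,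
    up.n h.hd, up.i h.hθ⟩

/-- PROOF. Use `Ke` for every field. -/
theorem Ag.ke (h : Ag N D ρ n M e A₁ A₂ y d θ) {Γ' : List Ty} {ρ' : A → Env Γ'}
    (ke : Ke N D ρ ρ') : Ag N D ρ' n M e A₁ A₂ y d θ := by
  exact ⟨ke.n h.hn, h.bn, ke.a h.hM, ke.n h.he, h.be, ke.a h.h1, ke.a h.h2, ke.n h.hy,
    ke.n h.hd, ke.i h.hθ⟩

/-- PROOF. `Cp.filter`; `PI.Phi`, `c_vu`, `PB.eq`. -/
theorem c_Ul (h : Ag N D ρ n M e A₁ A₂ y d θ) {α : A → ℤ} (hα : PI N D ρ α) :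
    Cp N D ρ (fun _ a => tw (e a) (A₁ a) (A₂ a)) .arr
      (fun a => Ul (n a) (M a) (e a) (d a) (α a)) := by
  refine Cp.mono (w := fun _ a => (((2 ^ e a : ℕ) : ℝ) + 1)) ?_ ?_
  · refine Cp.filter (PN.pow2 h.he h.be) fun Γ1 ρ1 up hu => ?_
    exact PB.eq (PI.Phi (up.n h.hn) (h.bn.up _) (up.a h.hM)
      (c_vu (up.n h.hn) (h.bn.up _) (up.n h.hd) hu)) (up.i hα)
  · intro a _ τ _
    show (((2 ^ e a : ℕ) : ℝ) + 1) ≤ (2 : ℝ) ^ e a + (A₁ a).length * (A₂ a).length + 1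
    rw [Nat.cast_pow, Nat.cast_ofNat]
    have h1 : (0 : ℝ) ≤ ((A₁ a).length : ℝ) * (A₂ a).length := by positivity
    linarith

/-- PROOF. `Cp.filter`; `PI.Phi`, `c_vv`, `PB.eq`. -/
theorem c_Vl (h : Ag N D ρ n M e A₁ A₂ y d θ) {β : A → ℤ} (hβ : PI N D ρ β) :
    Cp N D ρ (fun _ a => tw (e a) (A₁ a) (A₂ a)) .arr
      (fun a => Vl (n a) (M a) (e a) (A₁ a) (A₂ a) (y a) (d a) (β a)) := by
  refine Cp.mono (w := fun _ a => ((((A₁ a).length * (A₂ a).length : ℕ) : ℝ) + 1)) ?_ ?_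
  · refine Cp.filter (PN.mul (PN.len h.h1) (PN.len h.h2)) fun Γ1 ρ1 up hu => ?_
    exact PB.eq (PI.Phi (up.n h.hn) (h.bn.up _) (up.a h.hM)
      (c_vv (up.n h.hn) (h.bn.up _) (up.n h.he) (up.a h.h1) (up.a h.h2) (up.n h.hy) (up.n h.hd)
        hu)) (up.i hβ)
  · intro a _ τ _
    show ((((A₁ a).length * (A₂ a).length : ℕ) : ℝ) + 1) ≤
      (2 : ℝ) ^ e a + (A₁ a).length * (A₂ a).length + 1
    rw [Nat.cast_mul]
    have h1 : (0 : ℝ) ≤ (2 : ℝ) ^ e a := by positivity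
    linarith

end Pool.Agent.MPa9445a.SN
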