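import Pool.Agent.Lib.MP_a9445a_lc.SN.W2a
import Pool.Agent.Lib.MP_a9445a_lc.SN.W2b
import Pool.Agent.Lib.MP_a9445a_lc.SN.W2c
import Pool.Agent.Lib.MP_a9445a_lc.SN.W3a
import Pool.Agent.Lib.MP_a9445a_lc.SN.WD

/-! The lists, the counts and the enumeration are computed by programs. -/

set_option autoImplicit false

open Finset

namespace Pool.Agent.MPa9445a.SN

open Pool.Agent.MPa9445a.BE

variable {A : Type} {N : A → ℕ} {D : A → Prop} {Γ : List Ty} {ρ : A → Env Γ}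
variable {n e y d : A → ℕ} {M A₁ A₂ : A → List ℤ} {θ : A → ℤ}

private theorem W3b_aux {k : A → ℕ} (hb : Bd N D k) :
    ∃ c : ℕ, ∀ a, D a → (k a : ℝ) + 1 ≤ ((N a : ℝ) + 2) ^ c := by
  obtain ⟨c, hc⟩ := hb
  refine ⟨c + 1, fun a ha => ?_⟩
  have h1 : (k a : ℝ) ≤ ((N a : ℝ) + 2) ^ c := by exact_mod_cast hc a ha
  have h2 : (1 : ℝ) ≤ ((N a : ℝ) + 2) ^ c := one_le_pow₀ (by
    have : (0 : ℝ) ≤ N a := Nat.cast_nonneg _
    linarith)
  have h3 : (0 : ℝ) ≤ N a := Nat.cast_nonneg _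
  rw [pow_succ]
  nlinarith

private theorem W3b_sum {k : A → ℕ} {w : ℝ → A → ℝ} {f : A → ℕ → ℤ} (hk : PN N D ρ k)
    (hb : Bd N D k) (hw : ∀ a, D a → ∀ τ : ℝ, 2 ≤ τ → 1 ≤ w τ a) (h : Body N D ρ k w .int f) :
    Cp N D ρ w .int (fun a => ∑ i ∈ Finset.range (k a), f a i) := by
  obtain ⟨c, hc⟩ := W3b_aux hb
  refine (Cp.sum hk hw h).mono_poly c fun a ha τ hτ => ⟨hw a ha τ hτ, ?_⟩
  exact mul_le_mul_of_nonneg_right (hc a ha) (zero_le_one.trans (hw a ha τ hτ))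

private theorem W3b_tw (e : ℕ) (A₁ A₂ : List ℤ) : 1 ≤ tw e A₁ A₂ := by
  unfold tw
  have h1 : (0 : ℝ) ≤ (2 : ℝ) ^ e := by positivity
  have h2 : (0 : ℝ) ≤ (A₁.length : ℝ) * (A₂.length : ℝ) := by positivity
  linarith

/-- PROOF. Two loops of length `PP n` (`Cp.sum` and `Cp.mono_poly`, `bd_PP`), inside `Cp.ite`, `Cp.store` for the two lists, `PN.len`. -/
theorem c_cnt (h : Ag N D ρ n M e A₁ A₂ y d θ) :
    Cp N D ρ (fun _ a => tw (e a) (A₁ a) (A₂ a)) .int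
      (fun a => (cnt (n a) (M a) (e a) (A₁ a) (A₂ a) (y a) (d a) (θ a) : ℤ)) := by
  have hPP := c_PP h.hn
  have bPP := bd_PP h.bn
  have key : Cp N D ρ (fun _ a => tw (e a) (A₁ a) (A₂ a)) .int
      (fun a => ∑ x ∈ Finset.range (PP (n a)), ∑ z ∈ Finset.range (PP (n a)),
        if θ a ≤ 2 * (lv (n a) x + lv (n a) z) then
          ((Ul (n a) (M a) (e a) (d a) (lv (n a) x)).length : ℤ) *
            ((Vl (n a) (M a) (e a) (A₁ a) (A₂ a) (y a) (d a) (lv (n a) z)).length : ℤ)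
        else 0) := by
    refine W3b_sum hPP bPP (fun a _ τ _ => W3b_tw _ _ _) ?_
    intro Γ1 ρ1 up1 hx
    have h1 := h.up up1
    refine W3b_sum (w := fun _ p => tw (e p.1) (A₁ p.1) (A₂ p.1)) (up1.n hPP) (bPP.up _)
      (fun p _ τ _ => W3b_tw _ _ _) ?_
    intro Γ2 ρ2 up2 hz
    have h2 := h1.up up2
    have hx2 := up2.n hx
    have lx := c_lv h2.hn hx2
    have lz := c_lv h2.hn hz
    refine (c_Ul h2 lx).store fun Γ3 ρ3 k3 hU => ?_
    have h3 := h2.ke k3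
    refine (c_Vl h3 (k3.i lz)).store fun Γ4 ρ4 k4 hV => ?_
    have h4 := h3.ke k4
    have hU4 := k4.a hU
    have lx4 := k4.i (k3.i lx)
    have lz4 := k4.i (k3.i lz)
    exact Cp.lift (Cp.ite (PB.le h4.hθ (PI.mul (PI.const 2) (PI.add lx4 lz4)))
      (PI.mul (PN.len hU4) (PN.len hV)) (PI.const 0)) fun p _ τ _ => W3b_tw _ _ _
  refine key.congr fun a _ => ?_
  unfold cnt
  push_cast
  rfl

end Pool.Agent.MPa9445a.SN
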