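import Pool.Agent.Lib.MP_a9445a_lc.SN.W2a
import Pool.Agent.Lib.MP_a9445a_lc.SN.W2b
import Pool.Agent.Lib.MP_a9445a_lc.SN.W2c
import Pool.Agent.Lib.MP_a9445a_lc.SN.W3a
import Pool.Agent.Lib.MP_a9445a_lc.SN.W3b
import Pool.Agent.Lib.MP_a9445a_lc.SN.WD

/-! The lists, the counts and the enumeration are computed by programs. -/

set_option autoImplicit false

open Finset

namespace Pool.Agent.MPa9445a.SN

open Pool.Agent.MPa9445a.BE

variable {A : Type} {N : A → ℕ} {D : A → Prop} {Γ : List Ty} {ρ : A → Env Γ}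
variable {n e y d : A → ℕ} {M A₁ A₂ : A → List ℤ} {θ : A → ℤ}



private theorem W3c_len (k : ℕ) (q : ℕ → Prop) [DecidablePred q] : (flt k q).length ≤ k := by
  unfold flt
  rw [List.length_map]
  exact (List.length_filter_le _ _).trans (by simp)

private theorem W3c_dom (h : Ag N D ρ n M e A₁ A₂ y d θ) {D' : A → Prop} (hD : ∀ a, D' a → D a) :
    Ag N D' ρ n M e A₁ A₂ y d θ where
  hn := h.hn.dom hD
  bn := by
    obtain ⟨k, hk⟩ := h.bn
    exact ⟨k, fun a ha => hk a (hD a ha)⟩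
  hM := h.hM.dom hD
  he := h.he.dom hD
  be := by
    obtain ⟨k, hk⟩ := h.be
    exact ⟨k, fun a ha => hk a (hD a ha)⟩
  h1 := h.h1.dom hD
  h2 := h.h2.dom hD
  hy := h.hy.dom hD
  hd := h.hd.dom hD
  hθ := h.hθ.dom hD

/-- The weight of a pair of levels. -/
private noncomputable def W3c_u (n : ℕ) (M : List ℤ) (e : ℕ) (A₁ A₂ : List ℤ) (y d i j : ℕ) : ℝ :=
  tw e A₁ A₂ + (Ul n M e d (lv n i)).length * (Vl n M e A₁ A₂ y d (lv n j)).length

private theorem W3c_tw (e : ℕ) (A₁ A₂ : List ℤ) : 1 ≤ tw e A₁ A₂ := by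
  unfold tw
  have h1 : (0 : ℝ) ≤ (2 : ℝ) ^ e := by positivity
  have h2 : (0 : ℝ) ≤ (A₁.length : ℝ) * A₂.length := by positivity
  linarith

private theorem W3c_in (h : Ag N D ρ n M e A₁ A₂ y d θ) {i j : A → ℕ} (hi : PN N D ρ i)
    (hj : PN N D ρ j) :
    Cp N D ρ (fun _ a => W3c_u (n a) (M a) (e a) (A₁ a) (A₂ a) (y a) (d a) (i a) (j a)) .int
      (fun a => mx (Ul (n a) (M a) (e a) (d a) (lv (n a) (i a))).length fun s =>
        mx (Vl (n a) (M a) (e a) (A₁ a) (A₂ a) (y a) (d a) (lv (n a) (j a))).length fun t =>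
          sco (n a) (M a) (cmp (n a) (e a) (A₁ a) (A₂ a) (y a) (d a)
            (gt (Ul (n a) (M a) (e a) (d a) (lv (n a) (i a))) s).toNat
            (gt (Vl (n a) (M a) (e a) (A₁ a) (A₂ a) (y a) (d a) (lv (n a) (j a))) t).toNat)) := by
  have hu : ∀ a, tw (e a) (A₁ a) (A₂ a) ≤
      W3c_u (n a) (M a) (e a) (A₁ a) (A₂ a) (y a) (d a) (i a) (j a) := by
    intro a
    unfold W3c_u
    have : (0 : ℝ) ≤ ((Ul (n a) (M a) (e a) (d a) (lv (n a) (i a))).length : ℝ) *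
      (Vl (n a) (M a) (e a) (A₁ a) (A₂ a) (y a) (d a) (lv (n a) (j a))).length := by positivity
    linarith
  refine Cp.store (s := .arr) (g := fun a => Ul (n a) (M a) (e a) (d a) (lv (n a) (i a)))
    ((c_Ul h (c_lv h.hn hi)).mono fun a _ τ _ => hu a) fun Γ1 ρ1 k1 hU => ?_
  have h1 := h.ke k1
  refine Cp.store (s := .arr)
    (g := fun a => Vl (n a) (M a) (e a) (A₁ a) (A₂ a) (y a) (d a) (lv (n a) (j a)))
    ((c_Vl h1 (c_lv h1.hn (k1.n hj))).mono fun a _ τ _ => hu a) fun Γ2 ρ2 k2 hV => ?_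
  have h2 := h1.ke k2
  have hU2 := k2.a hU
  have main : Cp N D ρ2 (fun τ a => 1 + ∑ s ∈ range (Ul (n a) (M a) (e a) (d a) (lv (n a) (i a))).length,
      (1 + ∑ t ∈ range (Vl (n a) (M a) (e a) (A₁ a) (A₂ a) (y a) (d a) (lv (n a) (j a))).length,
        (1 : ℝ))) .int
      (fun a => mx (Ul (n a) (M a) (e a) (d a) (lv (n a) (i a))).length fun s =>
        mx (Vl (n a) (M a) (e a) (A₁ a) (A₂ a) (y a) (d a) (lv (n a) (j a))).length fun t =>
          sco (n a) (M a) (cmp (n a) (e a) (A₁ a) (A₂ a) (y a) (d a)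
            (gt (Ul (n a) (M a) (e a) (d a) (lv (n a) (i a))) s).toNat
            (gt (Vl (n a) (M a) (e a) (A₁ a) (A₂ a) (y a) (d a) (lv (n a) (j a))) t).toNat)) := by
    refine mxW (w := fun _ p => 1 + ∑ t ∈ range (Vl (n p.1) (M p.1) (e p.1) (A₁ p.1) (A₂ p.1)
      (y p.1) (d p.1) (lv (n p.1) (j p.1))).length, (1 : ℝ)) (PN.len hU2) ?_
    intro Γ3 ρ3 up3 hs
    have h3 := h2.up up3
    refine mxW (w := fun _ _ => (1 : ℝ)) (PN.len (up3.a hV)) ?_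
    intro Γ4 ρ4 up4 ht
    have h4 := h3.up up4
    have gU := PN.toNat (PI.get (up4.a (up3.a hU2)) (up4.n hs))
    have gV := PN.toNat (PI.get (up4.a (up3.a hV)) ht)
    exact c_sco h4.hn h4.bn h4.hM (c_cmp h4.hn h4.bn h4.he h4.h1 h4.h2 h4.hy h4.hd gU gV)
  refine main.mono fun a _ τ _ => ?_
  have l1 : ((Ul (n a) (M a) (e a) (d a) (lv (n a) (i a))).length : ℝ) ≤ (2 : ℝ) ^ e a := by
    have := W3c_len (2 ^ e a) (fun u => Phi (n a) (M a) (vu (n a) (d a) u) = lv (n a) (i a))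
    have h5 : (Ul (n a) (M a) (e a) (d a) (lv (n a) (i a))).length ≤ 2 ^ e a := this
    exact_mod_cast h5
  simp only [sum_const, card_range, nsmul_eq_mul, mul_one]
  unfold W3c_u tw
  have l2 : (0 : ℝ) ≤ ((A₁ a).length : ℝ) * (A₂ a).length := by positivity
  nlinarith

private theorem W3c_main (h : Ag N D ρ n M e A₁ A₂ y d θ) {P : A → ℕ} (hP : PN N D ρ P) :
    Cp N D ρ (fun _ a => 1 + ∑ i ∈ range (P a), (1 + ∑ j ∈ range (P a),
      if θ a ≤ 2 * (lv (n a) i + lv (n a) j) then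
        W3c_u (n a) (M a) (e a) (A₁ a) (A₂ a) (y a) (d a) i j else 1)) .int
      (fun a => mx (P a) fun i => mx (P a) fun j =>
        if θ a ≤ 2 * (lv (n a) i + lv (n a) j) then
          mx (Ul (n a) (M a) (e a) (d a) (lv (n a) i)).length fun s =>
            mx (Vl (n a) (M a) (e a) (A₁ a) (A₂ a) (y a) (d a) (lv (n a) j)).length fun t =>
              sco (n a) (M a) (cmp (n a) (e a) (A₁ a) (A₂ a) (y a) (d a)
                (gt (Ul (n a) (M a) (e a) (d a) (lv (n a) i)) s).toNat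
                (gt (Vl (n a) (M a) (e a) (A₁ a) (A₂ a) (y a) (d a) (lv (n a) j)) t).toNat)
        else 0) := by
  refine mxW (w := fun _ p => 1 + ∑ j ∈ range (P p.1),
    if θ p.1 ≤ 2 * (lv (n p.1) p.2 + lv (n p.1) j) then
      W3c_u (n p.1) (M p.1) (e p.1) (A₁ p.1) (A₂ p.1) (y p.1) (d p.1) p.2 j else 1) hP ?_
  intro Γ1 ρ1 up1 hi
  have h1 := h.up up1
  have hP1 := up1.n hP
  show Cp (NL N) (DL D P) ρ1 (fun _ p => 1 + ∑ j ∈ range (P p.1),
    if θ p.1 ≤ 2 * (lv (n p.1) p.2 + lv (n p.1) j) then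
      W3c_u (n p.1) (M p.1) (e p.1) (A₁ p.1) (A₂ p.1) (y p.1) (d p.1) p.2 j else 1) .int
      (fun p => mx (P p.1) fun j =>
        if θ p.1 ≤ 2 * (lv (n p.1) p.2 + lv (n p.1) j) then
          mx (Ul (n p.1) (M p.1) (e p.1) (d p.1) (lv (n p.1) p.2)).length fun s =>
            mx (Vl (n p.1) (M p.1) (e p.1) (A₁ p.1) (A₂ p.1) (y p.1) (d p.1)
              (lv (n p.1) j)).length fun t =>
              sco (n p.1) (M p.1) (cmp (n p.1) (e p.1) (A₁ p.1) (A₂ p.1) (y p.1) (d p.1)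
                (gt (Ul (n p.1) (M p.1) (e p.1) (d p.1) (lv (n p.1) p.2)) s).toNat
                (gt (Vl (n p.1) (M p.1) (e p.1) (A₁ p.1) (A₂ p.1) (y p.1) (d p.1)
                  (lv (n p.1) j)) t).toNat)
        else 0)
  refine mxW (A := A × ℕ) (N := NL N) (D := DL D P) (ρ := ρ1) (k := fun p => P p.1)
    (f := fun p j => if θ p.1 ≤ 2 * (lv (n p.1) p.2 + lv (n p.1) j) then
          mx (Ul (n p.1) (M p.1) (e p.1) (d p.1) (lv (n p.1) p.2)).length fun s =>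
            mx (Vl (n p.1) (M p.1) (e p.1) (A₁ p.1) (A₂ p.1) (y p.1) (d p.1)
              (lv (n p.1) j)).length fun t =>
              sco (n p.1) (M p.1) (cmp (n p.1) (e p.1) (A₁ p.1) (A₂ p.1) (y p.1) (d p.1)
                (gt (Ul (n p.1) (M p.1) (e p.1) (d p.1) (lv (n p.1) p.2)) s).toNat
                (gt (Vl (n p.1) (M p.1) (e p.1) (A₁ p.1) (A₂ p.1) (y p.1) (d p.1)
                  (lv (n p.1) j)) t).toNat)
        else 0) (w := fun _ p => if θ p.1.1 ≤ 2 * (lv (n p.1.1) p.1.2 + lv (n p.1.1) p.2) then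
      W3c_u (n p.1.1) (M p.1.1) (e p.1.1) (A₁ p.1.1) (A₂ p.1.1) (y p.1.1) (d p.1.1) p.1.2 p.2
      else 1) hP1 ?_
  intro Γ2 ρ2 up2 hj
  have h2 := h1.up up2
  have hi2 := up2.n hi
  refine iteW (A := (A × ℕ) × ℕ) (N := NL (NL N)) (D := DL (DL D P) fun p => P p.1) (ρ := ρ2)
    (u := fun _ p => W3c_u (n p.1.1) (M p.1.1) (e p.1.1) (A₁ p.1.1) (A₂ p.1.1)
      (y p.1.1) (d p.1.1) p.1.2 p.2) (v := one)
    (q := fun p => θ p.1.1 ≤ 2 * (lv (n p.1.1) p.1.2 + lv (n p.1.1) p.2))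
    (f := fun p => mx (Ul (n p.1.1) (M p.1.1) (e p.1.1) (d p.1.1) (lv (n p.1.1) p.1.2)).length fun s =>
            mx (Vl (n p.1.1) (M p.1.1) (e p.1.1) (A₁ p.1.1) (A₂ p.1.1) (y p.1.1) (d p.1.1)
              (lv (n p.1.1) p.2)).length fun t =>
              sco (n p.1.1) (M p.1.1) (cmp (n p.1.1) (e p.1.1) (A₁ p.1.1) (A₂ p.1.1) (y p.1.1) (d p.1.1)
                (gt (Ul (n p.1.1) (M p.1.1) (e p.1.1) (d p.1.1) (lv (n p.1.1) p.1.2)) s).toNat
                (gt (Vl (n p.1.1) (M p.1.1) (e p.1.1) (A₁ p.1.1) (A₂ p.1.1) (y p.1.1) (d p.1.1)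
                  (lv (n p.1.1) p.2)) t).toNat))
    (g := fun _ => 0)
    (PB.le h2.hθ (PI.mul (PI.const 2) (PI.add (c_lv h2.hn hi2) (c_lv h2.hn hj)))) ?_
    (PI.const 0)
  exact W3c_in (W3c_dom h2 fun a ha => ha.1) (hi2.dom fun a ha => ha.1)
    (hj.dom fun a ha => ha.1)

private theorem W3c_sum (P c N₀ : ℕ) (q : ℕ → ℕ → Prop) [∀ i j, Decidable (q i j)]
    (u : ℕ → ℕ → ℝ) (f : ℕ → ℕ → ℝ) (T C : ℝ) (hT1 : 1 ≤ T)
    (hC0 : 0 ≤ C) (hC : C = ∑ i ∈ range P, ∑ j ∈ range P, if q i j then f i j else 0)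
    (hu : ∀ i j, u i j = T + f i j)
    (hPc : P ≤ (N₀ + 2) ^ c) :
    1 + ∑ i ∈ range P, (1 + ∑ j ∈ range P, if q i j then u i j else 1) ≤
      ((N₀ : ℝ) + 2) ^ (2 * c + 2) * (T + C) := by
  have hterm : ∀ i ∈ range P, (1 + ∑ j ∈ range P, if q i j then u i j else 1) ≤
      (1 + P * T) + ∑ j ∈ range P, (if q i j then f i j else 0) := by
    intro i _
    have h3 : (P : ℝ) * T = ∑ j ∈ range P, T := by
      rw [sum_const, card_range, nsmul_eq_mul]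
    rw [h3, add_assoc, ← sum_add_distrib]
    gcongr with j hj
    split_ifs with hq
    · rw [hu]
    · linarith
  have hsum := sum_le_sum hterm
  have hsum2 : ∑ i ∈ range P, ((1 + P * T) + ∑ j ∈ range P, (if q i j then f i j else 0)) =
      P * (1 + P * T) + C := by
    rw [sum_add_distrib, sum_const, card_range, nsmul_eq_mul, hC]
  rw [hsum2] at hsum
  have hPc' : (P : ℝ) ≤ ((N₀ : ℝ) + 2) ^ c := by exact_mod_cast hPc
  have hx : (2 : ℝ) ≤ (N₀ : ℝ) + 2 := by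
    have : (0 : ℝ) ≤ (N₀ : ℝ) := Nat.cast_nonneg _
    linarith
  have hP0 : (0 : ℝ) ≤ P := Nat.cast_nonneg _
  have hpow : ((N₀ : ℝ) + 2) ^ (2 * c + 2) = (((N₀ : ℝ) + 2) ^ c) ^ 2 * ((N₀ : ℝ) + 2) ^ 2 := by
    rw [← pow_mul, ← pow_add]
    ring_nf
  obtain ⟨X, hX⟩ : ∃ X, X = ((N₀ : ℝ) + 2) ^ c := ⟨_, rfl⟩
  rw [← hX] at hPc' hpow
  have hX1 : 1 ≤ X := by
    rw [hX]
    exact one_le_pow₀ (by linarith)
  have h4 : (4 : ℝ) ≤ ((N₀ : ℝ) + 2) ^ 2 := by nlinarith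
  have h5 : (1 : ℝ) + P + P ^ 2 ≤ 3 * X ^ 2 := by
    have h6 : (P : ℝ) ^ 2 ≤ X ^ 2 := by gcongr
    nlinarith
  have h6 : 3 * X ^ 2 ≤ ((N₀ : ℝ) + 2) ^ (2 * c + 2) := by
    rw [hpow]
    nlinarith [sq_nonneg X]
  have h7 : 1 + ((P : ℝ) * (1 + P * T) + C) ≤ (1 + P + P ^ 2) * (T + C) := by
    nlinarith [mul_nonneg hP0 hC0, mul_nonneg (mul_nonneg hP0 hP0) hC0,
      mul_nonneg hP0 (sub_nonneg.mpr hT1)]
  calc _ ≤ 1 + ((P : ℝ) * (1 + P * T) + C) := by linarith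
    _ ≤ (1 + P + P ^ 2) * (T + C) := h7
    _ ≤ _ := mul_le_mul_of_nonneg_right (h5.trans h6) (by linarith)

/-- PROOF. `mxW` for the two loops over the levels; inside `iteW`: if `θ ≤ 2 (lv a + lv b)`: `Cp.store` for the two lists, then two `mxW` with `c_sco`, `c_cmp` (weight `1`), weight `tw + |Ul| |Vl|`; otherwise `0`, weight `1`. The sum over the levels of the weights is at most
`poly (tw + cnt)` (`Cp.mono_poly`). -/
theorem c_en (h : Ag N D ρ n M e A₁ A₂ y d θ) :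
    Cp N D ρ (fun _ a => tw (e a) (A₁ a) (A₂ a) +
        cnt (n a) (M a) (e a) (A₁ a) (A₂ a) (y a) (d a) (θ a)) .int
      (fun a => en (n a) (M a) (e a) (A₁ a) (A₂ a) (y a) (d a) (θ a)) := by
  have main := W3c_main h (P := fun a => PP (n a)) (c_PP h.hn)
  obtain ⟨c, hc⟩ := bd_PP h.bn
  refine main.mono_poly (2 * c + 2) fun a ha τ _ => ?_
  have hT1 : 1 ≤ tw (e a) (A₁ a) (A₂ a) := W3c_tw _ _ _
  have hC0 : (0 : ℝ) ≤ (cnt (n a) (M a) (e a) (A₁ a) (A₂ a) (y a) (d a) (θ a) : ℝ) :=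
    Nat.cast_nonneg _
  refine ⟨by linarith, ?_⟩
  refine W3c_sum (PP (n a)) c (N a) (fun i j => θ a ≤ 2 * (lv (n a) i + lv (n a) j))
    (fun i j => W3c_u (n a) (M a) (e a) (A₁ a) (A₂ a) (y a) (d a) i j)
    (fun i j => ((Ul (n a) (M a) (e a) (d a) (lv (n a) i)).length : ℝ) *
          (Vl (n a) (M a) (e a) (A₁ a) (A₂ a) (y a) (d a) (lv (n a) j)).length)
    _ _ hT1 hC0 ?_ (fun i j => rfl) (hc a ha)
  unfold cnt
  push_cast
  rfl

end Pool.Agent.MPa9445a.SN
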