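import Pool.Agent.Lib.MP_a9445a_lc.SN.W3a
import Pool.Agent.Lib.MP_a9445a_lc.SN.W3b
import Pool.Agent.Lib.MP_a9445a_lc.SN.W3c
import Pool.Agent.Lib.MP_a9445a_lc.SN.WD

/-! The main part is computed by a program. -/

set_option autoImplicit false

open Finset

namespace Pool.Agent.MPa9445a.SN

open Pool.Agent.MPa9445a.BE

variable {A : Type} {N : A → ℕ} {D : A → Prop} {Γ : List Ty} {ρ : A → Env Γ} {F : A → In}

theorem AvI.up (h : AvI N D ρ F) {k : A → ℕ} {Γ' : List Ty} {ρ' : A × ℕ → Env Γ'}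
    (up : Up N D ρ k ρ') : AvI (NL N) (DL D k) ρ' (fun p => F p.1) where
  hN p hp := h.hN p.1 hp.1
  hn := up.n h.hn
  hM := up.a h.hM
  hR := up.a h.hR
  hq := up.n h.hq
  hg := up.n h.hg
  he := up.n h.he
  h1 := up.n h.h1
  h2 := up.n h.h2
  hj := up.n h.hj
  hθ := up.i h.hθ
  hT := up.i h.hT
  bg p hp := h.bg p.1 hp.1
  be p hp := h.be p.1 hp.1

theorem AvI.ke (h : AvI N D ρ F) {Γ' : List Ty} {ρ' : A → Env Γ'} (ke : Ke N D ρ ρ') :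
    AvI N D ρ' F where
  hN := h.hN
  hn := ke.n h.hn
  hM := ke.a h.hM
  hR := ke.a h.hR
  hq := ke.n h.hq
  hg := ke.n h.hg
  he := ke.n h.he
  h1 := ke.n h.h1
  h2 := ke.n h.h2
  hj := ke.n h.hj
  hθ := ke.i h.hθ
  hT := ke.i h.hT
  bg := h.bg
  be := h.be

/-- PROOF. `n ≤ N`. -/
theorem AvI.bn (h : AvI N D ρ F) : Bd N D fun a => (F a).n :=
  ⟨1, fun a ha => (h.hN a ha).trans (by rw [pow_one]; omega)⟩

private theorem W4a_pw {n k : ℕ} (hk : k ≤ 486 * n / 625 + 1) :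
    (2 : ℝ) ^ k + 1 ≤ ((n : ℝ) + 2) ^ 20 * (2 : ℝ) ^ (486 * n / 625) := by
  have h0 : (0 : ℝ) ≤ (n : ℝ) := Nat.cast_nonneg _
  have h1 : (2 : ℝ) ^ k ≤ 2 ^ (486 * n / 625 + 1) := pow_le_pow_right₀ (by norm_num) hk
  have h2 : (1 : ℝ) ≤ 2 ^ (486 * n / 625) := one_le_pow₀ (by norm_num)
  have h3 : (4 : ℝ) ≤ ((n : ℝ) + 2) ^ 20 := by
    have h4 : (2 : ℝ) ^ 20 ≤ ((n : ℝ) + 2) ^ 20 := pow_le_pow_left₀ (by norm_num) (by linarith) 20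
    norm_num at h4 ⊢
    linarith
  rw [pow_succ] at h1
  nlinarith

/-- The number of samples, its square, the budget and the lists of masks are at most `poly * wA`. PROOF. `g ≤ sig n = ⌊0.2225 n⌋`, `2 * 0.2225 = 0.445 ≤ 0.7776`, `n / 2 + 1`; `0.7776 n < 486 n / 625 + 1`. -/
theorem wA_bounds (a : In) (hg : a.g ≤ sig a.n) :
    ((Jn a.n a.g : ℝ) + 1) ^ 2 ≤ ((a.n : ℝ) + 2) ^ 20 * wA a ∧
      (Bud a.n : ℝ) ≤ ((a.n : ℝ) + 2) ^ 20 * wA a ∧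
      (2 : ℝ) ^ ((a.n - a.e) - (a.n - a.e) / 2) + 1 ≤ ((a.n : ℝ) + 2) ^ 20 * wA a ∧
      (2 : ℝ) ^ ((a.n - a.e) / 2) + 1 ≤ ((a.n : ℝ) + 2) ^ 20 * wA a ∧ 1 ≤ wA a := by
  unfold wA
  refine ⟨?_, ?_, W4a_pw (by omega), W4a_pw (by omega), one_le_pow₀ (by norm_num)⟩
  · have h0 : (0 : ℝ) ≤ (a.n : ℝ) := Nat.cast_nonneg _
    have h1 : 2 * a.g ≤ 486 * a.n / 625 := by
      unfold sig at hg
      omega
    have h2 : ((2 : ℝ) ^ a.g) ^ 2 ≤ 2 ^ (486 * a.n / 625) := by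
      rw [← pow_mul, mul_comm a.g 2]
      exact pow_le_pow_right₀ (by norm_num) h1
    have h3 : (1 : ℝ) ≤ 2 ^ a.g := one_le_pow₀ (by norm_num)
    have h4 : (Jn a.n a.g : ℝ) = 2 ^ a.g * (64 * ((a.n : ℝ) + 1) ^ 2) := by
      unfold Jn
      push_cast
      ring
    have h5 : (1 : ℝ) ≤ 64 * ((a.n : ℝ) + 1) ^ 2 := by nlinarith
    have h6 : (Jn a.n a.g : ℝ) + 1 ≤ 2 ^ a.g * (128 * ((a.n : ℝ) + 2) ^ 2) := by
      rw [h4]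
      have h7 : (1 : ℝ) ≤ 2 ^ a.g * (64 * ((a.n : ℝ) + 1) ^ 2) := by nlinarith
      have h8 : 2 * (64 * ((a.n : ℝ) + 1) ^ 2) ≤ 128 * ((a.n : ℝ) + 2) ^ 2 := by nlinarith
      have h9 : (2 : ℝ) ^ a.g * (2 * (64 * ((a.n : ℝ) + 1) ^ 2)) ≤
          2 ^ a.g * (128 * ((a.n : ℝ) + 2) ^ 2) := mul_le_mul_of_nonneg_left h8 (by linarith)
      linarith
    have h10 : (0 : ℝ) ≤ (Jn a.n a.g : ℝ) + 1 := by positivity
    have h11 : ((Jn a.n a.g : ℝ) + 1) ^ 2 ≤ (2 ^ a.g * (128 * ((a.n : ℝ) + 2) ^ 2)) ^ 2 :=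
      pow_le_pow_left₀ h10 h6 2
    refine h11.trans ?_
    have h12 : ((2 : ℝ) ^ a.g * (128 * ((a.n : ℝ) + 2) ^ 2)) ^ 2 =
        (128 ^ 2 * ((a.n : ℝ) + 2) ^ 4) * ((2 : ℝ) ^ a.g) ^ 2 := by ring
    rw [h12]
    have h13 : (128 : ℝ) ^ 2 * ((a.n : ℝ) + 2) ^ 4 ≤ ((a.n : ℝ) + 2) ^ 20 := by
      have h14 : (2 : ℝ) ^ 16 ≤ ((a.n : ℝ) + 2) ^ 16 :=
        pow_le_pow_left₀ (by norm_num) (by linarith) 16
      have h15 : ((a.n : ℝ) + 2) ^ 20 = ((a.n : ℝ) + 2) ^ 16 * ((a.n : ℝ) + 2) ^ 4 := by ring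
      rw [h15]
      refine mul_le_mul_of_nonneg_right ?_ (by positivity)
      norm_num at h14 ⊢
      linarith
    exact mul_le_mul h13 h2 (by positivity) (by positivity)
  · unfold Bud
    push_cast
    exact le_rfl

end Pool.Agent.MPa9445a.SN
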