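import Pool.Agent.Lib.MP_a9445a_lc.SN.W3a
import Pool.Agent.Lib.MP_a9445a_lc.SN.W3b
import Pool.Agent.Lib.MP_a9445a_lc.SN.W3c
import Pool.Agent.Lib.MP_a9445a_lc.SN.W4a
import Pool.Agent.Lib.MP_a9445a_lc.SN.WD

/-! The main part is computed by a program. -/

set_option autoImplicit false

open Finset

namespace Pool.Agent.MPa9445a.SN

open Pool.Agent.MPa9445a.BE

variable {A : Type} {N : A → ℕ} {D : A → Prop} {Γ : List Ty} {ρ : A → Env Γ} {F : A → In}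

private theorem W4b_wt (h : AvI N D ρ F) {a : A} (ha : D a) {x : ℝ}
    (hx : x ≤ (((F a).n : ℝ) + 2) ^ 20 * wA (F a)) :
    1 ≤ wA (F a) ∧ x ≤ ((N a : ℝ) + 2) ^ 20 * wA (F a) := by
  have h1 := (wA_bounds (F a) (h.bg a ha)).2.2.2.2
  refine ⟨h1, hx.trans (mul_le_mul_of_nonneg_right ?_ (by linarith))⟩
  have h2 : ((F a).n : ℝ) ≤ (N a : ℝ) := by exact_mod_cast h.hN a ha
  have h3 : (0 : ℝ) ≤ ((F a).n : ℝ) := Nat.cast_nonneg _
  exact pow_le_pow_left₀ (by linarith) (by linarith) 20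

private theorem W4b_jn (h : AvI N D ρ F) {a : A} (ha : D a) :
    ((Jn (F a).n (F a).g : ℕ) : ℝ) + 1 ≤ (((F a).n : ℝ) + 2) ^ 20 * wA (F a) := by
  refine le_trans ?_ (wA_bounds (F a) (h.bg a ha)).1
  have h3 : (0 : ℝ) ≤ ((Jn (F a).n (F a).g : ℕ) : ℝ) := Nat.cast_nonneg _
  nlinarith

private theorem W4b_pn (h : AvI N D ρ F) : PN N D ρ (fun a => Jn (F a).n (F a).g) := by
  refine c_Jn h.hn h.hg (h.bn.le fun a ha => ?_)
  have h1 := h.bg a ha
  unfold sig at h1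
  omega

/-- PROOF. `Cp.filter`, `c_val`, `c_rcd`, `Cp.mono_poly` with `wA_bounds` (`n ≤ N`). -/
theorem c_YL (h : AvI N D ρ F) : Cp N D ρ (fun _ a => wA (F a)) .arr fun a => YL (F a) := by
  have key : Cp N D ρ (fun _ a => ((Jn (F a).n (F a).g : ℕ) : ℝ) + 1) .arr
      fun a => flt (Jn (F a).n (F a).g) fun j =>
        (F a).T ≤ val (F a).n (F a).M (rcd (F a).n (F a).R (2 * (F a).q + 1) j) := by
    refine Cp.filter (W4b_pn h) fun Γ1 ρ1 up hj => ?_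
    exact PB.le (up.i h.hT) (c_val (up.n h.hn) (h.bn.up _) (up.a h.hM)
      (c_rcd (up.n h.hn) (h.bn.up _) (up.a h.hR)
        (PN.add (PN.mul (PN.const 2) (up.n h.hq)) (PN.const 1)) hj))
  exact key.mono_poly 20 fun a ha τ _ => W4b_wt h ha (W4b_jn h ha)

/-- PROOF. As `c_YL`. -/
theorem c_Dl (h : AvI N D ρ F) : Cp N D ρ (fun _ a => wA (F a)) .arr fun a => Dl (F a) := by
  have key : Cp N D ρ (fun _ a => ((Jn (F a).n (F a).g : ℕ) : ℝ) + 1) .arr
      fun a => flt (Jn (F a).n (F a).g) fun i =>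
        pc (F a).n (rcd (F a).n (F a).R (2 * (F a).q) i) = (F a).e := by
    refine Cp.filter (W4b_pn h) fun Γ1 ρ1 up hj => ?_
    exact PB.eqN (c_pc (up.n h.hn) (h.bn.up _)
      (c_rcd (up.n h.hn) (h.bn.up _) (up.a h.hR) (PN.mul (PN.const 2) (up.n h.hq)) hj))
      (up.n h.he)
  exact key.mono_poly 20 fun a ha τ _ => W4b_wt h ha (W4b_jn h ha)

/-- PROOF. As `c_YL`. -/
theorem c_A1 (h : AvI N D ρ F) : Cp N D ρ (fun _ a => wA (F a)) .arr fun a => A1 (F a) := by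
  have key : Cp N D ρ (fun _ a => ((2 ^ (((F a).n - (F a).e) / 2) : ℕ) : ℝ) + 1) .arr
      fun a => flt (2 ^ (((F a).n - (F a).e) / 2)) fun c => pc (F a).n c = (F a).w₁ := by
    refine Cp.filter (PN.pow2 (PN.div (PN.sub h.hn h.he) (PN.const 2))
      (h.bn.le fun a _ => ?_)) fun Γ1 ρ1 up hj => ?_
    · omega
    · exact PB.eqN (c_pc (up.n h.hn) (h.bn.up _) hj) (up.n h.h1)
  refine key.mono_poly 20 fun a ha τ _ => W4b_wt h ha ?_
  push_cast
  exact (wA_bounds (F a) (h.bg a ha)).2.2.2.1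

/-- PROOF. As `c_YL`. -/
theorem c_A2 (h : AvI N D ρ F) : Cp N D ρ (fun _ a => wA (F a)) .arr fun a => A2 (F a) := by
  have key : Cp N D ρ (fun _ a =>
        ((2 ^ (((F a).n - (F a).e) - ((F a).n - (F a).e) / 2) : ℕ) : ℝ) + 1) .arr
      fun a => flt (2 ^ (((F a).n - (F a).e) - ((F a).n - (F a).e) / 2)) fun c =>
        pc (F a).n c = (F a).w₂ := by
    refine Cp.filter (PN.pow2 (PN.sub (PN.sub h.hn h.he)
      (PN.div (PN.sub h.hn h.he) (PN.const 2))) (h.bn.le fun a _ => ?_)) fun Γ1 ρ1 up hj => ?_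
    · omega
    · exact PB.eqN (c_pc (up.n h.hn) (h.bn.up _) hj) (up.n h.h2)
  refine key.mono_poly 20 fun a ha τ _ => W4b_wt h ha ?_
  push_cast
  exact (wA_bounds (F a) (h.bg a ha)).2.2.1

/-- PROOF. `mxW`, `c_sco`, `c_rcd`. -/
theorem c_smp (h : AvI N D ρ F) : Cp N D ρ (fun _ a => wA (F a)) .int fun a => smp (F a) := by
  have hB : BodyW N D ρ (fun a => Jn (F a).n (F a).g) (fun _ _ => 1) .int
      (fun a j => sco (F a).n (F a).M (rcd (F a).n (F a).R (2 * (F a).q + 1) j)) := by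
    intro Γ1 ρ1 up hj
    exact c_sco (up.n h.hn) (h.bn.up _) (up.a h.hM)
      (c_rcd (up.n h.hn) (h.bn.up _) (up.a h.hR)
        (PN.add (PN.mul (PN.const 2) (up.n h.hq)) (PN.const 1)) hj)
  have key : Cp N D ρ (fun _ a => 1 + ∑ _i ∈ range (Jn (F a).n (F a).g), (1 : ℝ)) .int
      fun a => smp (F a) := mxW (W4b_pn h) hB
  refine key.mono_poly 20 fun a ha τ _ => W4b_wt h ha ?_
  have h1 := W4b_jn h ha
  simp only [sum_const, card_range, nsmul_eq_mul, mul_one]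
  linarith

end Pool.Agent.MPa9445a.SN
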