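import Pool.Agent.Lib.MP_a9445a_lc.SN.W3a
import Pool.Agent.Lib.MP_a9445a_lc.SN.W3b
import Pool.Agent.Lib.MP_a9445a_lc.SN.W3c
import Pool.Agent.Lib.MP_a9445a_lc.SN.W4a
import Pool.Agent.Lib.MP_a9445a_lc.SN.W4b
import Pool.Agent.Lib.MP_a9445a_lc.SN.WD

/-! The main part is computed by a program. -/

set_option autoImplicit false

open Finset

namespace Pool.Agent.MPa9445a.SN

open Pool.Agent.MPa9445a.BE

variable {A : Type} {N : A → ℕ} {D : A → Prop} {Γ : List Ty} {ρ : A → Env Γ} {F : A → In}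

/-- PROOF. `Kn * (2^e + |A1| |A2| + 1) ≤ Bud n` (`Nat.div_mul_le_self`), and `Kn ≤ |Dl| ≤ Jn` (`length_flt_le`). -/
theorem Kn_bounds (a : In) : (Kn a : ℝ) * tw a.e (A1 a) (A2 a) ≤ Bud a.n ∧ Kn a ≤ Jn a.n a.g := by
  constructor
  · have h1 : Kn a ≤ Bud a.n / (2 ^ a.e + (A1 a).length * (A2 a).length + 1) := min_le_right _ _
    have h2 : Kn a * (2 ^ a.e + (A1 a).length * (A2 a).length + 1) ≤ Bud a.n :=
      (Nat.mul_le_mul_right _ h1).trans (Nat.div_mul_le_self _ _)
    have h3 : ((Kn a * (2 ^ a.e + (A1 a).length * (A2 a).length + 1) : ℕ) : ℝ) ≤ (Bud a.n : ℝ) := by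
      exact_mod_cast h2
    unfold tw
    push_cast at h3
    exact h3
  · exact (min_le_left _ _).trans (length_flt_le _ _)

/-- The allowed counts sum up to at most the budget. PROOF. The set of the `t < K` with `∑ s ≤ t, c s ≤ B` is an initial segment; its sum is the prefix sum of its last element. -/
theorem prefix_le (K B : ℕ) (c : ℕ → ℕ) :
    ∑ t ∈ range K, (if ∑ s ∈ range (t + 1), c s ≤ B then c t else 0) ≤ B := by
  induction K with
  | zero => simp
  | succ K ih =>
    by_cases h : ∑ s ∈ range (K + 1), c s ≤ B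
    · refine le_trans ?_ h
      refine Finset.sum_le_sum fun t _ => ?_
      split_ifs
      · exact le_rfl
      · exact Nat.zero_le _
    · rw [Finset.sum_range_succ, if_neg h, Nat.add_zero]
      exact ih

end Pool.Agent.MPa9445a.SN
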