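import Pool.Agent.Lib.MP_a9445a_lc.SN.W3a
import Pool.Agent.Lib.MP_a9445a_lc.SN.W3b
import Pool.Agent.Lib.MP_a9445a_lc.SN.W3c
import Pool.Agent.Lib.MP_a9445a_lc.SN.W4a
import Pool.Agent.Lib.MP_a9445a_lc.SN.W4b
import Pool.Agent.Lib.MP_a9445a_lc.SN.W4c
import Pool.Agent.Lib.MP_a9445a_lc.SN.WD

/-! The main part is computed by a program. -/

set_option autoImplicit false

open Finset

namespace Pool.Agent.MPa9445a.SN

open Pool.Agent.MPa9445a.BE

variable {A : Type} {N : A → ℕ} {D : A → Prop} {Γ : List Ty} {ρ : A → Env Γ} {F : A → In}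

private theorem W4d_dom {D' : A → Prop} {n e y d : A → ℕ} {M A₁ A₂ : A → List ℤ} {θ : A → ℤ}
    (h : Ag N D ρ n M e A₁ A₂ y d θ) (hD : ∀ a, D' a → D a) :
    Ag N D' ρ n M e A₁ A₂ y d θ where
  hn := h.hn.dom hD
  bn := by obtain ⟨k, hk⟩ := h.bn; exact ⟨k, fun a ha => hk a (hD a ha)⟩
  hM := h.hM.dom hD
  he := h.he.dom hD
  be := by obtain ⟨k, hk⟩ := h.be; exact ⟨k, fun a ha => hk a (hD a ha)⟩
  h1 := h.h1.dom hD
  h2 := h.h2.dom hD
  hy := h.hy.dom hD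
  hd := h.hd.dom hD
  hθ := h.hθ.dom hD

/-- The number of solutions for the set number `t`. -/
private def W4d_c (a : In) (t : ℕ) : ℕ := cnt a.n a.M a.e (A1 a) (A2 a) (yc a) (dc a t) a.θ

private theorem W4d_pre (a : In) {t : ℕ} (ht : t < Kn a) :
    (∑ s ∈ range (t + 1), gt (Ct a) s ≤ (Bud a.n : ℤ)) ↔
      ∑ s ∈ range (t + 1), W4d_c a s ≤ Bud a.n := by
  have h : ∑ s ∈ range (t + 1), gt (Ct a) s = ((∑ s ∈ range (t + 1), W4d_c a s : ℕ) : ℤ) := by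
    push_cast
    refine Finset.sum_congr rfl fun s hs => ?_
    have hs' := Finset.mem_range.1 hs
    unfold Ct
    rw [gt, getD_tb, if_pos (by omega)]
    rfl
  rw [h]
  exact Nat.cast_le

private theorem W4d_tri (K : ℕ) : ∑ t ∈ range K, ((t : ℝ) + 2) ≤ ((K : ℝ) + 1) ^ 2 := by
  induction K with
  | zero => simp
  | succ K ih =>
    rw [Finset.sum_range_succ]
    push_cast
    have : (0 : ℝ) ≤ (K : ℝ) := Nat.cast_nonneg _
    nlinarith

open Classical in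
private theorem W4d_wt (a : In) (hg : a.g ≤ sig a.n) :
    1 + ∑ t ∈ range (Kn a), (((t : ℝ) + 2) +
      (if ∑ s ∈ range (t + 1), gt (Ct a) s ≤ (Bud a.n : ℤ) then
        tw a.e (A1 a) (A2 a) + (W4d_c a t : ℝ) else 1)) ≤ ((a.n : ℝ) + 2) ^ 23 * wA a := by
  obtain ⟨b1, b2, -, -, b5⟩ := wA_bounds a hg
  obtain ⟨k1, k2⟩ := Kn_bounds a
  have hp := prefix_le (Kn a) (Bud a.n) (W4d_c a)
  have htw : (0 : ℝ) ≤ tw a.e (A1 a) (A2 a) := by unfold tw; positivity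
  have e1 : ∑ t ∈ range (Kn a), (if ∑ s ∈ range (t + 1), gt (Ct a) s ≤ (Bud a.n : ℤ) then
        tw a.e (A1 a) (A2 a) + (W4d_c a t : ℝ) else 1) ≤
      ∑ t ∈ range (Kn a), ((tw a.e (A1 a) (A2 a) + 1) +
        ((if ∑ s ∈ range (t + 1), W4d_c a s ≤ Bud a.n then W4d_c a t else 0 : ℕ) : ℝ)) := by
    refine Finset.sum_le_sum fun t ht => ?_
    have ht' := Finset.mem_range.1 ht
    by_cases hq : ∑ s ∈ range (t + 1), W4d_c a s ≤ Bud a.n
    · rw [if_pos ((W4d_pre a ht').2 hq), if_pos hq]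
      linarith
    · rw [if_neg (fun h => hq ((W4d_pre a ht').1 h)), if_neg hq]
      push_cast
      linarith
  rw [Finset.sum_add_distrib] at e1 ⊢
  rw [Finset.sum_const, Finset.card_range, nsmul_eq_mul] at e1
  have e2 : ∑ t ∈ range (Kn a),
      ((if ∑ s ∈ range (t + 1), W4d_c a s ≤ Bud a.n then W4d_c a t else 0 : ℕ) : ℝ) ≤
      (Bud a.n : ℝ) := by
    exact_mod_cast hp
  have e3 := W4d_tri (Kn a)
  have kk : (Kn a : ℝ) ≤ (Jn a.n a.g : ℝ) := by exact_mod_cast k2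
  have k0 : (0 : ℝ) ≤ (Kn a : ℝ) := Nat.cast_nonneg _
  have e4 : ((Kn a : ℝ) + 1) ^ 2 ≤ ((Jn a.n a.g : ℝ) + 1) ^ 2 := by
    apply pow_le_pow_left₀ (by linarith)
    linarith
  have e5 : (Kn a : ℝ) + 1 ≤ ((Kn a : ℝ) + 1) ^ 2 := by nlinarith
  have hn : (0 : ℝ) ≤ (a.n : ℝ) := Nat.cast_nonneg _
  have e6 : (5 : ℝ) * (((a.n : ℝ) + 2) ^ 20 * wA a) ≤ ((a.n : ℝ) + 2) ^ 23 * wA a := by
    have h8 : (8 : ℝ) ≤ ((a.n : ℝ) + 2) ^ 3 := by
      have := pow_le_pow_left₀ (by norm_num : (0 : ℝ) ≤ 2) (by linarith : (2 : ℝ) ≤ (a.n : ℝ) + 2) 3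
      norm_num at this ⊢
      exact this
    have hx : (0 : ℝ) ≤ ((a.n : ℝ) + 2) ^ 20 * wA a := by
      have : (0 : ℝ) ≤ wA a := by linarith
      positivity
    calc (5 : ℝ) * (((a.n : ℝ) + 2) ^ 20 * wA a) ≤
        ((a.n : ℝ) + 2) ^ 3 * (((a.n : ℝ) + 2) ^ 20 * wA a) :=
          mul_le_mul_of_nonneg_right (by linarith) hx
      _ = ((a.n : ℝ) + 2) ^ 23 * wA a := by ring
  have e7 : (Kn a : ℝ) * (tw a.e (A1 a) (A2 a) + 1) =
      (Kn a : ℝ) * tw a.e (A1 a) (A2 a) + Kn a := by ring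
  rw [e7] at e1
  have e8 : (0 : ℝ) ≤ ((a.n : ℝ) + 2) ^ 20 * wA a := by
    have : (0 : ℝ) ≤ wA a := by linarith
    positivity
  linarith

/-- The main part. PROOF. `Cp.store` for `YL`, `A1`, `A2`, `Dl`; `yc` and `dc` by `c_rcd`, `PI.get`, `PN.toNat`; `Kn` by `c_min`, `PN.len`, `PN.div`, `c_Bud`; store `Ct` (`tabW` with `c_cnt`: weight `1 + ∑ t < Kn, tw ≤ 1 + Bud`, `Kn_bounds`); then `mxW`, the body by storing the prefix sum (`Cp.sum`, weight `t + 2`)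
and `iteW` with `c_en` (in the domain with `t < Kn`; `Ct` at `t` is `cnt`): weight `t + 2 + tw + (cnt if allowed, else 0)`. The sum is at most `(Kn + 2)² + 2 Bud + ..` (`prefix_le`, `Kn_bounds`, `wA_bounds`). -/
theorem c_main (h : AvI N D ρ F) : Cp N D ρ (fun _ a => wA (F a)) .int fun a => main (F a) := by
  classical
  have hw1 : ∀ a, D a → (1 : ℝ) ≤ wA (F a) := fun a ha => (wA_bounds (F a) (h.bg a ha)).2.2.2.2
  have hbg := h.bg
  have hhN := h.hN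
  refine (c_YL h).store fun Γ1 ρ1 k1 hY => ?_
  replace h := h.ke k1
  refine (c_Dl h).store fun Γ2 ρ2 k2 hD => ?_
  replace h := h.ke k2
  replace hY := k2.a hY
  refine (c_A1 h).store fun Γ3 ρ3 k3 h1 => ?_
  replace h := h.ke k3
  replace hY := k3.a hY
  replace hD := k3.a hD
  refine (c_A2 h).store fun Γ4 ρ4 k4 h2 => ?_
  replace h := h.ke k4
  replace hY := k4.a hY
  replace hD := k4.a hD
  replace h1 := k4.a h1
  have be : Bd N D (fun a => (F a).e) := Bd.le h.bn h.be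
  have hy : PN N D ρ4 (fun a => yc (F a)) := c_rcd h.hn h.bn h.hR
    (PN.add (PN.mul (PN.const 2) h.hq) (PN.const 1)) (PN.toNat (PI.get hY h.hj))
  have hK : PN N D ρ4 (fun a => Kn (F a)) := c_min (PN.len hD) (PN.div (c_Bud h.hn h.bn)
    (PN.add (PN.add (PN.pow2 h.he be) (PN.mul (PN.len h1) (PN.len h2))) (PN.const 1)))
  have hAg : ∀ {k : A → ℕ} {Γ' : List Ty} {ρ' : A × ℕ → Env Γ'} {Γ5 : List Ty} {ρ5 : A → Env Γ5},
      Ke N D ρ4 ρ5 → Up N D ρ5 k ρ' → PN (NL N) (DL D k) ρ' (fun p => p.2) →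
      Ag (NL N) (DL D k) ρ' (fun p => (F p.1).n) (fun p => (F p.1).M) (fun p => (F p.1).e)
        (fun p => A1 (F p.1)) (fun p => A2 (F p.1)) (fun p => yc (F p.1))
        (fun p => dc (F p.1) p.2) (fun p => (F p.1).θ) := by
    intro k Γ' ρ' Γ5 ρ5 ke up ht
    have hn' := up.n (ke.n h.hn)
    have bn' := h.bn.up k
    exact
      { hn := hn'
        bn := bn'
        hM := up.a (ke.a h.hM)
        he := up.n (ke.n h.he)
        be := be.up k
        h1 := up.a (ke.a h1)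
        h2 := up.a (ke.a h2)
        hy := up.n (ke.n hy)
        hd := c_rcd hn' bn' (up.a (ke.a h.hR)) (PN.mul (PN.const 2) (up.n (ke.n h.hq)))
          (PN.toNat (PI.get (up.a (ke.a hD)) ht))
        hθ := up.i (ke.i h.hθ) }
  have hB : BodyW N D ρ4 (fun a => Kn (F a))
      (fun _ p => tw (F p.1).e (A1 (F p.1)) (A2 (F p.1))) .int
      (fun a t => (cnt (F a).n (F a).M (F a).e (A1 (F a)) (A2 (F a)) (yc (F a)) (dc (F a) t)
        (F a).θ : ℤ)) := by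
    intro Γ' ρ' up ht
    exact c_cnt (hAg (fun w t f hf => hf) up ht)
  have hC : Cp N D ρ4 (fun _ a => wA (F a)) .arr (fun a => Ct (F a)) := by
    refine (tabW hK hB).mono_poly 21 fun a ha τ _ => ⟨hw1 a ha, ?_⟩
    obtain ⟨-, b2, -, -, b5⟩ := wA_bounds (F a) (hbg a ha)
    obtain ⟨kb1, -⟩ := Kn_bounds (F a)
    change 1 + ∑ _i ∈ range (Kn (F a)), tw (F a).e (A1 (F a)) (A2 (F a)) ≤ _
    rw [Finset.sum_const, Finset.card_range, nsmul_eq_mul]
    have hNn : ((F a).n : ℝ) ≤ (N a : ℝ) := by exact_mod_cast hhN a ha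
    have hn0 : (0 : ℝ) ≤ ((F a).n : ℝ) := Nat.cast_nonneg _
    have p1 : (((F a).n : ℝ) + 2) ^ 20 ≤ ((N a : ℝ) + 2) ^ 20 :=
      pow_le_pow_left₀ (by linarith) (by linarith) 20
    have p2 : (1 : ℝ) ≤ ((N a : ℝ) + 2) ^ 20 := one_le_pow₀ (by linarith)
    have p3 : (((F a).n : ℝ) + 2) ^ 20 * wA (F a) ≤ ((N a : ℝ) + 2) ^ 20 * wA (F a) :=
      mul_le_mul_of_nonneg_right p1 (by linarith)
    have p4 : (1 : ℝ) ≤ ((N a : ℝ) + 2) ^ 20 * wA (F a) := by nlinarith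
    calc 1 + (Kn (F a) : ℝ) * tw (F a).e (A1 (F a)) (A2 (F a))
        ≤ 2 * (((N a : ℝ) + 2) ^ 20 * wA (F a)) := by linarith
      _ ≤ ((N a : ℝ) + 2) * (((N a : ℝ) + 2) ^ 20 * wA (F a)) :=
          mul_le_mul_of_nonneg_right (by linarith) (by linarith)
      _ = ((N a : ℝ) + 2) ^ 21 * wA (F a) := by ring
  refine hC.store fun Γ5 ρ5 k5 hCt => ?_
  have hK5 := k5.n hK
  have hBud5 := c_Bud (k5.n h.hn) h.bn
  have hMB : BodyW N D ρ5 (fun a => Kn (F a))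
      (fun _ p => ((p.2 : ℝ) + 2) +
        (if ∑ s ∈ range (p.2 + 1), gt (Ct (F p.1)) s ≤ (Bud (F p.1).n : ℤ) then
          tw (F p.1).e (A1 (F p.1)) (A2 (F p.1)) + (W4d_c (F p.1) p.2 : ℝ) else 1)) .int
      (fun a t => if ∑ s ∈ range (t + 1), gt (Ct (F a)) s ≤ (Bud (F a).n : ℤ) then
        en (F a).n (F a).M (F a).e (A1 (F a)) (A2 (F a)) (yc (F a)) (dc (F a) t) (F a).θ
        else 0) := by
    intro Γ' ρ' up ht
    have htw1 : ∀ p : A × ℕ, (1 : ℝ) ≤ tw (F p.1).e (A1 (F p.1)) (A2 (F p.1)) := fun p => by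
      unfold tw
      have : (0 : ℝ) ≤ (2 : ℝ) ^ (F p.1).e + (A1 (F p.1)).length * (A2 (F p.1)).length := by
        positivity
      linarith
    have hif : ∀ p : A × ℕ, (1 : ℝ) ≤
        (if ∑ s ∈ range (p.2 + 1), gt (Ct (F p.1)) s ≤ (Bud (F p.1).n : ℤ) then
          tw (F p.1).e (A1 (F p.1)) (A2 (F p.1)) + (W4d_c (F p.1) p.2 : ℝ) else 1) := fun p => by
      have := htw1 p
      have h0 : (0 : ℝ) ≤ (W4d_c (F p.1) p.2 : ℝ) := Nat.cast_nonneg _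
      split_ifs
      · linarith
      · exact le_refl _
    have hs : Cp (NL N) (DL D fun a => Kn (F a)) ρ'
        (fun τ p => (((p.2 + 1 : ℕ) : ℝ) + 1) * one τ p) .int
        (fun p => ∑ s ∈ range (p.2 + 1), gt (Ct (F p.1)) s) := by
      refine Cp.sum (k := fun p : A × ℕ => p.2 + 1) (PN.add ht (PN.const 1))
        (fun _ _ _ _ => le_refl _) ?_
      intro Γ2 ρ2 up2 hs
      exact PI.get (up2.a (up.a hCt)) hs
    have hs' := hs.mono (w' := fun _ p => ((p.2 : ℝ) + 2) +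
        (if ∑ s ∈ range (p.2 + 1), gt (Ct (F p.1)) s ≤ (Bud (F p.1).n : ℤ) then
          tw (F p.1).e (A1 (F p.1)) (A2 (F p.1)) + (W4d_c (F p.1) p.2 : ℝ) else 1))
      (fun p _ τ _ => by
        have := hif p
        simp only [one, mul_one]
        push_cast
        linarith)
    refine hs'.store fun Γ6 ρ6 k6 hS => ?_
    have ag := hAg k5 up ht
    have hbud6 : PN (NL N) (DL D fun a => Kn (F a)) ρ6 (fun p => Bud (F p.1).n) :=
      k6.n (up.n hBud5)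
    have hq : PB (NL N) (DL D fun a => Kn (F a)) ρ6
        (fun p => ∑ s ∈ range (p.2 + 1), gt (Ct (F p.1)) s ≤ (Bud (F p.1).n : ℤ)) :=
      PB.le hS hbud6
    have ag6 := ag.ke k6
    have e1 := c_en (W4d_dom (D' := fun p => DL D (fun a => Kn (F a)) p ∧
      ∑ s ∈ range (p.2 + 1), gt (Ct (F p.1)) s ≤ (Bud (F p.1).n : ℤ)) ag6 fun p hp => hp.1)
    have e2 : Cp (NL N) (fun p => DL D (fun a => Kn (F a)) p ∧
      ¬ ∑ s ∈ range (p.2 + 1), gt (Ct (F p.1)) s ≤ (Bud (F p.1).n : ℤ)) ρ6 one .int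
        (fun _ => (0 : ℤ)) := PI.const 0
    have e3 := iteW hq e1 e2
    refine (e3.mono (w' := fun _ p => ((p.2 : ℝ) + 2) +
        (if ∑ s ∈ range (p.2 + 1), gt (Ct (F p.1)) s ≤ (Bud (F p.1).n : ℤ) then
          tw (F p.1).e (A1 (F p.1)) (A2 (F p.1)) + (W4d_c (F p.1) p.2 : ℝ) else 1)) ?_).congr ?_
    · intro p _ τ _
      have h0 : (0 : ℝ) ≤ (p.2 : ℝ) := Nat.cast_nonneg _
      by_cases hc : ∑ s ∈ range (p.2 + 1), gt (Ct (F p.1)) s ≤ (Bud (F p.1).n : ℤ)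
      · simp only [if_pos hc]
        unfold W4d_c
        linarith
      · simp only [if_neg hc, one]
        linarith
    · intro p _
      rfl
  have hmx := mxW hK5 hMB
  refine (hmx.mono_poly 23 fun a ha τ _ => ⟨hw1 a ha, ?_⟩).congr fun a _ => ?_
  · have hw := W4d_wt (F a) (hbg a ha)
    have hNn : ((F a).n : ℝ) ≤ (N a : ℝ) := by exact_mod_cast hhN a ha
    have hn0 : (0 : ℝ) ≤ ((F a).n : ℝ) := Nat.cast_nonneg _
    have p1 : (((F a).n : ℝ) + 2) ^ 23 ≤ ((N a : ℝ) + 2) ^ 23 :=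
      pow_le_pow_left₀ (by linarith) (by linarith) 23
    have h1' := hw1 a ha
    refine le_trans hw (mul_le_mul_of_nonneg_right p1 (by linarith))
  · unfold main
    congr 1

end Pool.Agent.MPa9445a.SN
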