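import Pool.Agent.Lib.MP_a9445a_lc.SN.W4a
import Pool.Agent.Lib.MP_a9445a_lc.SN.W4b
import Pool.Agent.Lib.MP_a9445a_lc.SN.W4c
import Pool.Agent.Lib.MP_a9445a_lc.SN.W4d
import Pool.Agent.Lib.MP_a9445a_lc.SN.WD

/-! The whole algorithm is computed by a program, and its running time. -/

set_option autoImplicit false

open Finset

namespace Pool.Agent.MPa9445a.SN

open Pool.Agent.MPa9445a.BE

private theorem W5a_asz (l : List ℤ) (h : ∀ x ∈ l, |x| ≤ 1) : asz l ≤ 1 := by
  induction l with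
  | nil => simp [asz]
  | cons a l ih =>
    have h1 : asz l ≤ 1 := ih fun x hx => h x (List.mem_cons_of_mem _ hx)
    have h2 : |a| ≤ 1 := h a List.mem_cons_self
    have h3 : sz a ≤ 1 := by
      unfold sz
      rw [Nat.size_le]
      have h4 := abs_le.mp h2
      omega
    unfold asz at h1 ⊢
    simp only [List.map_cons, List.foldr_cons]
    omega

private theorem W5a_vs (l : List ℤ) (h : ∀ x ∈ l, |x| ≤ 1) {m : ℕ} (hm : l.length ≤ m) :
    vs (t := .arr) l ≤ m + 1 := by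
  have h1 := W5a_asz l h
  have h2 : Nat.size l.length ≤ l.length := by
    rw [Nat.size_le]
    exact Nat.lt_two_pow_self
  show asz l + Nat.size l.length ≤ m + 1
  omega

/-- PROOF. `Cp.top`, `Cp.wk`; sizes: entries have at most one digit, lengths are polynomial (`Lb n = 4 n² · n (3 n + 7)`). -/
theorem start : PN Prod.fst Dg envb Prod.fst ∧ PA Prod.fst Dg envb (fun b => b.2.1) ∧
    PA Prod.fst Dg envb (fun b => b.2.2) := by
  refine ⟨Cp.top (t := .int) (f := fun b : Gb => (b.1 : ℤ)) ((Bd.self).size), ?_, ?_⟩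
  · refine Cp.wk (s := .int) (g := fun b : Gb => (b.1 : ℤ)) ?_
    refine Cp.top (t := .arr) (f := fun b : Gb => b.2.1) ⟨2, ?_⟩
    intro b hb
    have h1 := W5a_vs b.2.1 hb.2.1 hb.1
    refine h1.trans ?_
    nlinarith
  · refine Cp.wk (s := .int) (g := fun b : Gb => (b.1 : ℤ)) ?_
    refine Cp.wk (s := .arr) (g := fun b : Gb => b.2.1) ?_
    refine Cp.top (t := .arr) (f := fun b : Gb => b.2.2) ⟨9, ?_⟩
    intro b hb
    have h1 := W5a_vs b.2.2 hb.2.2.2 hb.2.2.1
    refine h1.trans ?_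
    show Lb b.1 + 1 ≤ (b.1 + 2) ^ 9
    unfold Lb nbk bl kb
    generalize b.1 = n
    ring_nf
    nlinarith [Nat.zero_le n, Nat.zero_le (n ^ 2), Nat.zero_le (n ^ 3), Nat.zero_le (n ^ 4),
      Nat.zero_le (n ^ 5), Nat.zero_le (n ^ 6), Nat.zero_le (n ^ 7), Nat.zero_le (n ^ 8),
      Nat.zero_le (n ^ 9)]

end Pool.Agent.MPa9445a.SN
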