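import Pool.Agent.Lib.MP_a9445a_lc.SN.W4a
import Pool.Agent.Lib.MP_a9445a_lc.SN.W4b
import Pool.Agent.Lib.MP_a9445a_lc.SN.W4c
import Pool.Agent.Lib.MP_a9445a_lc.SN.W4d
import Pool.Agent.Lib.MP_a9445a_lc.SN.W5a
import Pool.Agent.Lib.MP_a9445a_lc.SN.WD

/-! The whole algorithm is computed by a program, and its running time. -/

set_option autoImplicit false

open Finset

namespace Pool.Agent.MPa9445a.SN

open Pool.Agent.MPa9445a.BE

/-- The input of the main part at the pass `x`. -/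
private def W5b_F (p : Gb × ℕ) : In := inp p.1.1 p.1.2.1 p.1.2.2 p.2

private theorem W5b_av {Γ : List Ty} {ρ : Gb → Env Γ} {D : Gb → Prop}
    (hn : PN Prod.fst D ρ Prod.fst)
    (hM : PA Prod.fst D ρ (fun b => b.2.1)) (hR : PA Prod.fst D ρ (fun b => b.2.2)) {k : Gb → ℕ}
    {Γ' : List Ty} {ρ' : Gb × ℕ → Env Γ'} (up : Up Prod.fst D ρ k ρ')
    (hx : PN (NL Prod.fst) (DL D k) ρ' (fun p => p.2)) :
    AvI (NL Prod.fst) (DL D k) ρ' W5b_F := by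
  have hn' : PN (NL Prod.fst) (DL D k) ρ' (fun p => p.1.1) := up.n hn
  exact
    { hN := fun a _ => le_rfl
      hn := hn'
      hM := up.a hM
      hR := up.a hR
      hq := c_dg hn' hx 0
      hg := c_min (c_dg hn' hx 1) (c_sig hn')
      he := c_min (c_dg hn' hx 2) hn'
      h1 := c_dg hn' hx 3
      h2 := c_dg hn' hx 4
      hj := c_dg hn' hx 5
      hθ := c_lv hn' (c_dg hn' hx 6)
      hT := c_lv hn' (c_dg hn' hx 7)
      bg := fun a _ => min_le_right _ _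
      be := fun a _ => min_le_right _ _ }

private theorem W5b_alg {X Y W P : ℝ} (hP : P ≤ X) (hX : 1 ≤ X) (hY : 32 ≤ Y) (hW : 1 ≤ W) :
    1 + P * (1 + 2 * W) ≤ X * Y * W := by
  have h0 : 1 ≤ X * W := one_le_mul_of_one_le_of_one_le hX hW
  have h1 : P * (1 + 2 * W) ≤ X * (3 * W) :=
    mul_le_mul hP (by linarith) (by linarith) (by linarith)
  have h2 : X * W * 32 ≤ X * W * Y := mul_le_mul_of_nonneg_left hY (by linarith)
  calc 1 + P * (1 + 2 * W) ≤ X * W + 3 * (X * W) := by linarith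
    _ ≤ X * W * 32 := by linarith
    _ ≤ X * W * Y := h2
    _ = X * Y * W := by ring

private theorem W5b_num (n : ℕ) {W : ℝ} (hW : 1 ≤ W) :
    1 + ((PP n ^ 8 : ℕ) : ℝ) * (1 + 2 * W) ≤ ((n : ℝ) + 2) ^ 125 * W := by
  have h0 : (0 : ℝ) ≤ n := Nat.cast_nonneg n
  obtain ⟨x, hx⟩ : ∃ x : ℝ, x = (n : ℝ) + 2 := ⟨_, rfl⟩
  rw [← hx]
  have h2 : (2 : ℝ) ≤ x := by linarith
  have h1 : (1 : ℝ) ≤ x := by linarith
  have h3 : ((PP n : ℕ) : ℝ) ≤ x ^ 15 := by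
    have e1 : ((PP n : ℕ) : ℝ) = 2048 * ((n : ℝ) + 1) ^ 4 := by
      rw [PP, Nat.cast_mul, Nat.cast_pow, Nat.cast_add, Nat.cast_one, Nat.cast_ofNat]
    have e2 : (2048 : ℝ) ≤ x ^ 11 := by
      calc (2048 : ℝ) = 2 ^ 11 := by norm_num
        _ ≤ x ^ 11 := pow_le_pow_left₀ (by norm_num) h2 11
    have e3 : ((n : ℝ) + 1) ^ 4 ≤ x ^ 4 := pow_le_pow_left₀ (by linarith) (by linarith) 4
    calc ((PP n : ℕ) : ℝ) = 2048 * ((n : ℝ) + 1) ^ 4 := e1
      _ ≤ x ^ 11 * x ^ 4 := mul_le_mul e2 e3 (by positivity) (by positivity)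
      _ = x ^ 15 := by rw [← pow_add]
  have h4 : ((PP n ^ 8 : ℕ) : ℝ) ≤ x ^ 120 := by
    rw [Nat.cast_pow]
    calc ((PP n : ℕ) : ℝ) ^ 8 ≤ (x ^ 15) ^ 8 := pow_le_pow_left₀ (Nat.cast_nonneg _) h3 8
      _ = x ^ 120 := by rw [← pow_mul]
  have h6 : (32 : ℝ) ≤ x ^ 5 := by
    calc (32 : ℝ) = 2 ^ 5 := by norm_num
      _ ≤ x ^ 5 := pow_le_pow_left₀ (by norm_num) h2 5
  have h7 : x ^ 125 = x ^ 120 * x ^ 5 := by rw [← pow_add]
  rw [h7]
  exact W5b_alg h4 (one_le_pow₀ h1) h6 hW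

/-- PROOF. `PP n ^ 8` passes (`Cp.mono_poly`), `2` passes; `AvI` for `F (b, x) = inp b.1 b.2.1 b.2.2 x` by `c_dg`, `c_min`, `c_sig`, `c_lv`; `c_main`, `c_smp`, `iteW` or `Cp.ite`. -/
theorem c_best {Γ : List Ty} {ρ : Gb → Env Γ} {D : Gb → Prop} (hn : PN Prod.fst D ρ Prod.fst)
    (hM : PA Prod.fst D ρ (fun b => b.2.1)) (hR : PA Prod.fst D ρ (fun b => b.2.2)) :
    Cp Prod.fst D ρ (fun _ b => (2 : ℝ) ^ (486 * b.1 / 625)) .int
      (fun b => best b.1 b.2.1 b.2.2) := by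
  have hk : PN Prod.fst D ρ (fun b => PP b.1 ^ 8) :=
    (PI.pow (c_PP hn) 8).congr fun a _ => by push_cast; rfl
  have key : BodyW Prod.fst D ρ (fun b => PP b.1 ^ 8)
      (fun _ p => 1 + ∑ _s ∈ range 2, wA (W5b_F p)) .int
      (fun b x => mx 2 fun s => if s = 0 then main (inp b.1 b.2.1 b.2.2 x)
        else smp (inp b.1 b.2.1 b.2.2 x)) := by
    intro Γ1 ρ1 up hx
    have hA := W5b_av hn hM hR up hx
    have body : BodyW (NL Prod.fst) (DL D fun b => PP b.1 ^ 8) ρ1 (fun _ => 2)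
        (fun _ q => wA (W5b_F q.1)) .int
        (fun p s => if s = 0 then main (W5b_F p) else smp (W5b_F p)) := by
      intro Γ2 ρ2 up2 hs
      have hA2 := hA.up up2
      exact Cp.ite (PB.eqN hs (PN.const 0)) (c_main hA2) (c_smp hA2)
    exact mxW (PN.const 2) body
  refine (mxW hk key).mono_poly 125 fun b _ τ _ => ?_
  have hW : (1 : ℝ) ≤ (2 : ℝ) ^ (486 * b.1 / 625) := one_le_pow₀ (by norm_num)
  refine ⟨hW, ?_⟩
  refine le_trans (le_of_eq ?_) (W5b_num b.1 hW)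
  simp only [W5b_F, wA, inp, sum_const, card_range, nsmul_eq_mul]
  push_cast
  ring

end Pool.Agent.MPa9445a.SN
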