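import Pool.Agent.Lib.MP_a9445a_lc.SN.W4a
import Pool.Agent.Lib.MP_a9445a_lc.SN.W4b
import Pool.Agent.Lib.MP_a9445a_lc.SN.W4c
import Pool.Agent.Lib.MP_a9445a_lc.SN.W4d
import Pool.Agent.Lib.MP_a9445a_lc.SN.W5a
import Pool.Agent.Lib.MP_a9445a_lc.SN.W5b
import Pool.Agent.Lib.MP_a9445a_lc.SN.WD

/-! The whole algorithm is computed by a program, and its running time. -/

set_option autoImplicit false

open Finset

namespace Pool.Agent.MPa9445a.SN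

open Pool.Agent.MPa9445a.BE

/-- PROOF. Store `best`; `PA.tab`, `PN.bit`, `PN.toNat`, `PI.mod`. -/
theorem c_out : Cp Prod.fst Dg envb (fun _ b => (2 : ℝ) ^ (486 * b.1 / 625)) .arr
    (fun b => out b.1 b.2.1 b.2.2) := by
  obtain ⟨hn, hM, hR⟩ := start
  refine (c_best hn hM hR).store fun Γ1 ρ1 k1 b1 => ?_
  have hp : PI Prod.fst Dg ρ1 (fun b => (2 : ℤ) ^ b.1) :=
    (PN.pow2 (k1.n hn) Bd.self).congr fun b _ => by push_cast; rfl
  have hc : PN Prod.fst Dg ρ1 (fun b => (best b.1 b.2.1 b.2.2 % 2 ^ b.1).toNat) :=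
    PN.toNat (PI.mod b1 hp)
  obtain ⟨F, hF0⟩ : ∃ F : Gb → ℕ, F = fun b => (best b.1 b.2.1 b.2.2 % 2 ^ b.1).toNat := ⟨_, rfl⟩
  have hF : PN Prod.fst Dg ρ1 F := by rw [hF0]; exact hc
  have e : PA Prod.fst Dg ρ1 (fun b => tb b.1 fun v => ((bit (F b) v : ℕ) : ℤ)) := by
    refine PA.tab (k1.n hn) Bd.self fun Γ2 ρ2 up hv => ?_
    have h1 : PN (NL Prod.fst) (DL Dg Prod.fst) ρ2 (fun p : Gb × ℕ => F p.1) := up.n hF
    have h2 := PN.bit h1 hv (Bd.var Bd.self)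
    exact h2
  have e2 : PA Prod.fst Dg ρ1 (fun b => out b.1 b.2.1 b.2.2) :=
    e.congr fun b _ => by rw [out, hF0]
  refine Cp.lift e2 fun b _ τ hτ => ?_
  exact one_le_pow₀ (by norm_num)

end Pool.Agent.MPa9445a.SN
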