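import Pool.Agent.Lib.MP_a9445a_lc.SN.W4a
import Pool.Agent.Lib.MP_a9445a_lc.SN.W4b
import Pool.Agent.Lib.MP_a9445a_lc.SN.W4c
import Pool.Agent.Lib.MP_a9445a_lc.SN.W4d
import Pool.Agent.Lib.MP_a9445a_lc.SN.W5a
import Pool.Agent.Lib.MP_a9445a_lc.SN.W5b
import Pool.Agent.Lib.MP_a9445a_lc.SN.W5c
import Pool.Agent.Lib.MP_a9445a_lc.SN.WD

/-! The whole algorithm is computed by a program, and its running time. -/

set_option autoImplicit false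

open Finset

namespace Pool.Agent.MPa9445a.SN

open Pool.Agent.MPa9445a.BE

private theorem W5d_poly (k : ℕ) {r : ℝ} (hr : 1 < r) :
    ∃ C : ℝ, 0 ≤ C ∧ ∀ n : ℕ, (n : ℝ) ^ k ≤ C * r ^ n := by
  have h1 := (isLittleO_pow_const_const_pow_of_one_lt (R := ℝ) k hr).isBigO
  rw [Asymptotics.isBigO_nat_atTop_iff
    (fun x h => absurd h (pow_ne_zero _ (by linarith)))] at h1
  obtain ⟨C, hC⟩ := h1
  refine ⟨|C|, abs_nonneg _, fun n => ?_⟩
  have h2 := hC n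
  rw [Real.norm_of_nonneg (by positivity), Real.norm_of_nonneg (by positivity)] at h2
  exact h2.trans (mul_le_mul_of_nonneg_right (le_abs_self _) (by positivity))

/-- PROOF. `486 n / 625 ≤ 0.7776 n`, and `(n + 2)^k ≤ C 2^(n / 10000)` (`7/9 - 0.7776 > 1/10000`); cf. `B10_poly`. -/
theorem poly_le (k : ℕ) : ∃ C : ℝ, ∀ n : ℕ,
    ((n : ℝ) + 2) ^ k * (2 : ℝ) ^ (486 * n / 625) ≤ C * (2 : ℝ) ^ ((7 / 9 : ℝ) * n) := by
  obtain ⟨C, hC0, hC⟩ := W5d_poly k (r := (2 : ℝ) ^ (1 / 10000 : ℝ))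
    (Real.one_lt_rpow (by norm_num) (by norm_num))
  refine ⟨C * (2 : ℝ) ^ (2 / 10000 : ℝ), fun n => ?_⟩
  have h1 := hC (n + 2)
  rw [← Real.rpow_natCast, ← Real.rpow_natCast, ← Real.rpow_mul (by norm_num)] at h1
  rw [Real.rpow_natCast] at h1
  push_cast at h1
  have h2 : (2 : ℝ) ^ (486 * n / 625) ≤ (2 : ℝ) ^ ((486 / 625 : ℝ) * n) := by
    rw [← Real.rpow_natCast]
    refine Real.rpow_le_rpow_of_exponent_le (by norm_num) ?_
    have h3 := @Nat.cast_div_le ℝ _ _ _ (486 * n) 625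
    push_cast at h3
    linarith
  have hn : (0 : ℝ) ≤ n := Nat.cast_nonneg n
  calc ((n : ℝ) + 2) ^ k * (2 : ℝ) ^ (486 * n / 625)
      ≤ (C * (2 : ℝ) ^ (1 / 10000 * ((n : ℝ) + 2))) * (2 : ℝ) ^ ((486 / 625 : ℝ) * n) :=
        mul_le_mul h1 h2 (by positivity) (by positivity)
    _ = C * (2 : ℝ) ^ (2 / 10000 : ℝ) * (2 : ℝ) ^ ((1 / 10000 + 486 / 625 : ℝ) * n) := by
        rw [show (1 / 10000 : ℝ) * ((n : ℝ) + 2) = 2 / 10000 + 1 / 10000 * n by ring,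
          Real.rpow_add (by norm_num), add_mul, Real.rpow_add (by norm_num)]
        ring
    _ ≤ C * (2 : ℝ) ^ (2 / 10000 : ℝ) * (2 : ℝ) ^ ((7 / 9 : ℝ) * n) := by
        refine mul_le_mul_of_nonneg_left ?_ (by positivity)
        exact Real.rpow_le_rpow_of_exponent_le (by norm_num)
          (mul_le_mul_of_nonneg_right (by norm_num) hn)

/-- PROOF. `c_out`, `poly_le`. -/
theorem program : ∃ e : Ex [.int, .arr, .arr] .arr,
    (∀ b, Dg b → e.eval (envb b) = out b.1 b.2.1 b.2.2) ∧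
    ∃ C : ℝ, ∀ τ : ℝ, 2 ≤ τ → ∀ b, Dg b →
      e.cost τ (envb b) ≤ C * (2 : ℝ) ^ ((7 / 9 : ℝ) * b.1) := by
  obtain ⟨e, k, h⟩ := c_out
  obtain ⟨C, hC⟩ := poly_le k
  exact ⟨e, fun b hb => (h b hb).1, C, fun τ hτ b hb => (((h b hb).2.2 τ hτ).2).trans (hC b.1)⟩

end Pool.Agent.MPa9445a.SN
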