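import Pool.Agent.Lib.MP_a9445a_lc.Mg.G135
import Pool.Agent.Lib.MP_a9445a_lc.SN.F1
import Pool.Agent.Lib.MP_a9445a_lc.SN.W5a
import Pool.Agent.Lib.MP_a9445a_lc.SN.W5b
import Pool.Agent.Lib.MP_a9445a_lc.SN.W5c
import Pool.Agent.Lib.MP_a9445a_lc.SN.W5d
import Pool.Agent.Lib.MP_a9445a_lc.BE.Fin
import Pool.Agent.Lib.MP_a9445a_lc.SN.Alg2
import Pool.Agent.Lib.MP_a9445a_lc.SN.WD

/-! The theorem. -/

set_option autoImplicit false

open Finset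

namespace Pool.Agent.MPa9445a.SN

open Pool.Agent.MPa9445a.BE

/-- PROOF. `arrG G` has `n * n` entries `0`, `1`; `rb ρ` has `Lb n` entries `0`, `1`. -/
theorem Dg_input {n : ℕ} (G : SimpleGraph (Fin n)) (ρ : Fin (Lb n) → Bool) :
    Dg (n, arrG G, rb ρ) := by
  refine ⟨?_, ?_, ?_, ?_⟩
  · show (arrG G).length ≤ n * n
    unfold arrG
    rw [List.length_map, List.length_range]
  · show ∀ x ∈ arrG G, |x| ≤ 1
    intro x hx
    unfold arrG at hx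
    rw [List.mem_map] at hx
    obtain ⟨y, _, rfl⟩ := hx
    split_ifs <;> simp
  · show (rb ρ).length ≤ Lb n
    unfold rb
    rw [List.length_ofFn]
  · show ∀ x ∈ rb ρ, |x| ≤ 1
    intro x hx
    unfold rb at hx
    rw [List.mem_ofFn] at hx
    obtain ⟨i, rfl⟩ := hx
    cases ρ i <;> simp

open scoped Classical in
/-- PROOF. `program`, `all_graphs` for `M = arrG` (`fm_arrG`), `Dg_input`, `nth_nat`; `Lb n = 4 n^3 (3 n + 7) ≤ (n + 2) ^ 7`. -/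
theorem main_thm : ∃ (e : Ex [.int, .arr, .arr] .arr) (L : ℕ → ℕ),
    (∃ k : ℕ, ∀ n, L n ≤ (n + 2) ^ k) ∧
    (∃ C : ℝ, ∀ τ : ℝ, 2 ≤ τ → ∀ (n : ℕ) (G : SimpleGraph (Fin n)) (ρ : Fin (L n) → Bool),
      e.cost τ ((n : ℤ), arrG G, rb ρ, ()) ≤ C * 2 ^ ((7 / 9 : ℝ) * n)) ∧
    ∀ n : ℕ, Even n →
      (univ.filter fun ρ : Fin (L n) → Bool => ¬ ∀ G : SimpleGraph (Fin n),
        IsMinBisection G (univ.filter fun v : Fin n =>
          nth (e.eval ((n : ℤ), arrG G, rb ρ, ())) (v : ℕ) = 1)).card * 2 ^ (n ^ 2) ≤ 2 ^ L n := by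
  obtain ⟨e, he, C, hC⟩ := program
  refine ⟨e, Lb, ⟨8, ?_⟩, ⟨C, ?_⟩, ?_⟩
  · intro n
    have h1 : Lb n = 4 * n ^ 3 * (3 * n + 7) := by
      unfold Lb nbk bl kb
      ring
    rw [h1]
    have h2 : 4 * n ^ 3 * (3 * n + 7) ≤ 4 * (n + 2) ^ 3 * (4 * (n + 2)) := by
      apply Nat.mul_le_mul
      · exact Nat.mul_le_mul_left 4 (Nat.pow_le_pow_left (by omega) 3)
      · omega
    have h3 : 2 ^ 4 ≤ (n + 2) ^ 4 := Nat.pow_le_pow_left (by omega) 4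
    calc 4 * n ^ 3 * (3 * n + 7) ≤ 4 * (n + 2) ^ 3 * (4 * (n + 2)) := h2
      _ = 2 ^ 4 * (n + 2) ^ 4 := by ring
      _ ≤ (n + 2) ^ 4 * (n + 2) ^ 4 := Nat.mul_le_mul_right _ h3
      _ = (n + 2) ^ 8 := by ring
  · intro τ hτ n G ρ
    exact hC τ hτ (n, arrG G, rb ρ) (Dg_input G ρ)
  · intro n hn
    have h1 : ∀ (G : SimpleGraph (Fin n)) (ρ : Fin (Lb n) → Bool) (v : Fin n),
        nth (e.eval ((n : ℤ), arrG G, rb ρ, ())) (v : ℕ) = gt (out n (arrG G) (rb ρ)) v := by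
      intro G ρ v
      have h2 : e.eval ((n : ℤ), arrG G, rb ρ, ()) = out n (arrG G) (rb ρ) :=
        he (n, arrG G, rb ρ) (Dg_input G ρ)
      rw [h2]
      exact nth_nat _ _
    simp only [h1]
    exact all_graphs n hn (fun G => arrG G) (fun G => fm_arrG G)

end Pool.Agent.MPa9445a.SN
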